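import Pool.Agent.Lib_helper2.GKV.V7

/-!
# Counting over a Hopf subalgebra of the coradical
-/

set_option autoImplicit false

universe u v

namespace Pool.Agent.GKW

open TensorProduct Pool.Agent.GK Pool.Agent.GKP Pool.Agent.GKF Pool.Agent.GKU

section rank
variable (k : Type u) [Field k] {H : Type v} [Ring H] [HopfAlgebra k H]

theorem map_antipode_pow (X : Submodule k H) (n : ℕ) :
    (X ^ n).map (HopfAlgebra.antipode k) ≤ (X.map (HopfAlgebra.antipode k)) ^ n := by
  induction n with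
  | zero =>
    rw [pow_zero, pow_zero, Submodule.map_le_iff_le_comap]
    intro x hx
    obtain ⟨c, rfl⟩ := Submodule.mem_one.1 hx
    rw [Submodule.mem_comap, Algebra.algebraMap_eq_smul_one, map_smul, HopfAlgebra.antipode_one]
    exact Submodule.mem_one.2 ⟨c, Algebra.algebraMap_eq_smul_one c⟩
  | succ n ih =>
    rw [Submodule.map_le_iff_le_comap, pow_succ, Submodule.mul_le]
    intro a ha b hb
    rw [Submodule.mem_comap, HopfAlgebra.antipode_mul_antidistrib, pow_succ']
    exact Submodule.mul_mem_mul (Submodule.mem_map_of_mem hb) (ih (Submodule.mem_map_of_mem ha))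

theorem fg_of_le {C D : Submodule k H} (hD : D.FG) (h : C ≤ D) : C.FG := by
  have : Module.Finite k D := Module.Finite.iff_fg.2 hD
  have := Submodule.finiteDimensional_of_le h
  exact Module.Finite.iff_fg.1 this

theorem simple_le {K T : Submodule k H} (hc : Ctx k (coradical k H) K T) {M : Submodule k H} (hM : M ≤ T)
    (D : Submodule k H) (hD : IsSimpleSubcoalgebra k D) (hDM : D ≤ M) : D ≤ K :=
  (le_inf (hDM.trans hM) (le_sSup hD)).trans hc.inf

theorem pow_le_T {K T : Submodule k H} (hc : Ctx k (coradical k H) K T) {M : Submodule k H} (hM : M ≤ T) (n : ℕ) :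
    M ^ n ≤ T := by
  induction n with
  | zero => rw [pow_zero]; exact Submodule.one_le.2 (hc.KT hc.hK.one_mem)
  | succ n ih => rw [pow_succ]; exact (mul_le_mul' ih hM).trans hc.mulT

variable {m : ℕ} {x : Fin m → H} {w : Fin m → ℤ}

/-- the data for the count -/
structure Cnt (K T C C' : Submodule k H) (x : Fin m → H) (w : Fin m → ℤ) (c : ℕ) : Prop where
  ctx : Ctx k (coradical k H) K T
  let' : LetHyp k K x w
  fg : C.FG
  sub : IsSubcoalgebra k C
  one : (1 : H) ∈ C
  CT : C ≤ T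
  fg' : C'.FG
  CC' : C ≤ C'
  SC' : (C ⊓ coradical k H).map (HopfAlgebra.antipode k) ≤ C'
  mem : ∀ j, x j ∈ C ^ c

variable {k}

theorem Em_le_T {K T C C' : Submodule k H} {c : ℕ} (hd : Cnt k K T C C' x w c) (s : ℤ) : Em k K x w s ≤ T := by
  have hxT : ∀ j, x j ∈ T := fun j => pow_le_T k hd.ctx hd.CT c (hd.mem j)
  have h1 : Es k x w s ≤ T := by
    unfold Es
    rw [Submodule.span_le]
    rintro _ ⟨l, -, rfl⟩
    rw [SetLike.mem_coe]
    induction l with
    | nil => rw [lift_nil]; exact hd.ctx.KT hd.ctx.hK.one_mem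
    | cons j l ih => rw [lift_cons]; exact hd.ctx.mulT (Submodule.mul_mem_mul (hxT j) ih)
  exact (mul_le_mul' h1 hd.ctx.KT).trans hd.ctx.mulT

/-- one level -/
theorem level_fam {K T C C' : Submodule k H} {c : ℕ} (hd : Cnt k K T C C' x w c) (s : ℕ) :
    ∃ (r : ℕ) (e : Fin r → H), Fam k K (Em k K x w ((s : ℤ) - 1)) e ∧
      (∀ i, e i ∈ C' ^ (2 * c * s) ∧ e i ∈ Em k K x w s) ∧
      Em k K x w s = Em k K x w ((s : ℤ) - 1) ⊔ Submodule.span k (Set.range e) * K := by
  have h := hd.let'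
  have hKH : IsHopfSubalgebra k K := hd.ctx.hK
  set M : Submodule k H := Em k K x w s ⊓ C ^ (c * s) with hM
  have hMf : M.FG := fg_of_le k (hd.fg.pow (c * s)) inf_le_right
  have hCp : IsSubcoalgebra k (C ^ (c * s)) := GKC.sub_pow hd.sub _
  have hMs : IsSubcoalgebra k M := cs_inf k (Em_sub k h s) hCp
  have hCT : C ^ (c * s) ≤ T := pow_le_T k hd.ctx hd.CT _
  have hcorK : C ^ (c * s) ⊓ coradical k H ≤ (C ⊓ coradical k H) ^ (c * s) := nd_pow k hd.fg hd.sub _
  obtain ⟨r, e, hF, he, hcov⟩ := flag_exists k hKH (LS_of_sub k (Em_sub k h ((s : ℤ) - 1)))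
    (Em_mul_K k h _) hMf hMs (simple_le k hd.ctx (inf_le_right.trans hCT))
  have hEsM : Es k x w s ≤ M := le_inf (le_mul_one k hKH.one_mem _) (Es_le_powC k hd.one hd.mem h.w1 s)
  have heC : ∀ i, e i ∈ C' ^ (2 * c * s) := by
    intro i
    have h2 : (M ⊓ K).map (HopfAlgebra.antipode k) ≤ C' ^ (c * s) := by
      have h3 : M ⊓ K ≤ (C ⊓ coradical k H) ^ (c * s) :=
        (inf_le_inf inf_le_right hd.ctx.KA).trans hcorK
      exact (Submodule.map_mono h3).trans ((map_antipode_pow k _ _).trans (pow_le_pow_left' hd.SC' _))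
    have h4 := mul_le_mul' ((inf_le_right : M ≤ C ^ (c * s)).trans (pow_le_pow_left' hd.CC' _)) h2 (he i)
    rwa [← pow_add, show c * s + c * s = 2 * c * s by ring] at h4
  have heE : ∀ i, e i ∈ Em k K x w s := by
    intro i
    have h2 : (M ⊓ K).map (HopfAlgebra.antipode k) ≤ K := by
      rw [Submodule.map_le_iff_le_comap]
      rintro y ⟨_, hyK⟩
      exact hKH.antipode_mem y hyK
    exact Em_mul_K k h s (mul_le_mul' inf_le_left h2 (he i))
  refine ⟨r, e, hF, fun i => ⟨heC i, heE i⟩, le_antisymm ?_ ?_⟩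
  · have h2 : Em k K x w s ≤ M * K := mul_le_mul' hEsM le_rfl
    refine h2.trans ((mul_le_mul' hcov le_rfl).trans ?_)
    rw [Submodule.sup_mul, mul_assoc]
    exact sup_le_sup (Em_mul_K k h _) (mul_le_mul' le_rfl hKH.mul_le)
  · refine sup_le (Em_mono k K x w (by omega)) ?_
    refine (mul_le_mul' (Submodule.span_le.2 ?_) le_rfl).trans (Em_mul_K k h s)
    rintro _ ⟨i, rfl⟩
    exact heE i

/-- the total family -/
theorem total_fam {K T C C' : Submodule k H} {c : ℕ} (hd : Cnt k K T C C' x w c)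
    {B : Type u} [Ring B] [Algebra k B] (q : FreeAlgebra k (Fin m) →ₐ[k] B)
    (hq : ∀ f, q f = 0 ↔ Null k (Nm k K x w) x w f) (n : ℕ) :
    ∃ (r : ℕ) (e : Fin r → H), r = Module.finrank k ↥(Es k (fun j => q (FreeAlgebra.ι k j)) w ((n : ℤ) - 1)) ∧
      Fam k K ⊥ e ∧ (∀ i, e i ∈ C' ^ (2 * c * n)) ∧
      Em k K x w ((n : ℤ) - 1) = ⊥ ⊔ Submodule.span k (Set.range e) * K := by
  have h := hd.let'
  have hKH : IsHopfSubalgebra k K := hd.ctx.hK
  have h1C' : (1 : Submodule k H) ≤ C' := Submodule.one_le.2 (hd.CC' hd.one)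
  induction n with
  | zero =>
    refine ⟨0, Fin.elim0, ?_, ⟨LS_bot k, by rw [Submodule.bot_mul], fun i => i.elim0, fun i => i.elim0⟩,
      fun i => i.elim0, ?_⟩
    · rw [Es_neg' k _ h.w1 (by norm_num), finrank_bot]
    · rw [Em_neg k h (by norm_num), Set.range_eq_empty, Submodule.span_empty, Submodule.bot_mul, bot_sup_eq]
  | succ n ih =>
    obtain ⟨r, e, hr, hF, heC, hcov⟩ := ih
    obtain ⟨r', e', hF', he', hcov'⟩ := level_fam hd n
    have hrank := level_rank k hKH h (n : ℤ) hF' (fun i => (he' i).2) hcov'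
    refine ⟨r + r', Fin.append e e', ?_, fam_append k hF hcov hF', ?_, ?_⟩
    · rw [show ((n + 1 : ℕ) : ℤ) - 1 = (n : ℤ) by push_cast; ring,
        Es_finrank_succ k _ w (n : ℤ) (Es_fg' k _ h.w1 _), piece_eq k h q hq, hrank, ← hr, add_comm]
    · intro i
      refine Fin.addCases (fun i => ?_) (fun i => ?_) i
      · rw [Fin.append_left]
        exact pow_le_pow_right' h1C' (Nat.mul_le_mul_left _ (Nat.le_succ n)) (heC i)
      · rw [Fin.append_right]
        exact pow_le_pow_right' h1C' (Nat.mul_le_mul_left _ (Nat.le_succ n)) (he' i).1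
    · rw [show ((n + 1 : ℕ) : ℤ) - 1 = (n : ℤ) by push_cast; ring, hcov', hcov, range_append,
        Submodule.span_union, Submodule.sup_mul, sup_assoc]

/-- the family over the coradical -/
theorem fam_cor {K T C C' : Submodule k H} {c : ℕ} (hd : Cnt k K T C C' x w c)
    {B : Type u} [Ring B] [Algebra k B] (q : FreeAlgebra k (Fin m) →ₐ[k] B)
    (hq : ∀ f, q f = 0 ↔ Null k (Nm k K x w) x w f) (s : ℕ) :
    ∃ (r : ℕ) (e : Fin r → H), r = Module.finrank k ↥(Es k (fun j => q (FreeAlgebra.ι k j)) w (s : ℤ)) ∧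
      Fam k (coradical k H) ⊥ e ∧ (∀ i, e i ∈ C' ^ (2 * c * (s + 1))) ∧
      Em k K x w (s : ℤ) = Submodule.span k (Set.range e) * K := by
  obtain ⟨r, e, hr, hF, heC, hcov⟩ := total_fam hd q hq (s + 1)
  have hs : ((s + 1 : ℕ) : ℤ) - 1 = (s : ℤ) := by push_cast; ring
  rw [hs] at hr hcov
  rw [bot_sup_eq] at hcov
  have heT : ∀ i, e i ∈ T := by
    intro i
    refine Em_le_T hd (s : ℤ) ?_
    rw [hcov]
    exact le_mul_one k hd.ctx.hK.one_mem _ (Submodule.subset_span ⟨i, rfl⟩)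
  obtain ⟨hFA, _⟩ := fam_co k hd.ctx hF heT bot_le (by
    rw [Submodule.bot_mul]; exact inf_le_right)
  rw [Submodule.bot_mul] at hFA
  exact ⟨r, e, hr, hFA, heC, hcov⟩

/-- lower bound -/
theorem count_low {K T C C' : Submodule k H} {c : ℕ} (hd : Cnt k K T C C' x w c)
    {B : Type u} [Ring B] [Algebra k B] (q : FreeAlgebra k (Fin m) →ₐ[k] B)
    (hq : ∀ f, q f = 0 ↔ Null k (Nm k K x w) x w f) (s : ℕ) {D : Submodule k H} (hD : D.FG)
    (hDA : D ≤ coradical k H) :
    Module.finrank k ↥(Es k (fun j => q (FreeAlgebra.ι k j)) w (s : ℤ)) * Module.finrank k D ≤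
        Module.finrank k ↥(C' ^ (2 * c * (s + 1)) * D) := by
  obtain ⟨r, e, hr, hFA, heC, hcov⟩ := fam_cor hd q hq s
  have h2 := fam_lower k hd.ctx.hA hFA (hd.fg'.pow (2 * c * (s + 1))) heC hD hDA
  rwa [Fintype.card_fin, hr] at h2

/-- upper bound -/
theorem count_up {K T C C' : Submodule k H} {c : ℕ} (hd : Cnt k K T C C' x w c)
    {B : Type u} [Ring B] [Algebra k B] (q : FreeAlgebra k (Fin m) →ₐ[k] B)
    (hq : ∀ f, q f = 0 ↔ Null k (Nm k K x w) x w f) (s : ℕ) {X : Submodule k H}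
    (hX : X.FG) (hXs : IsSubcoalgebra k X) (hXC : X ≤ Em k K x w (s : ℤ) * coradical k H) :
    Module.finrank k ↥X ≤
      Module.finrank k ↥(Es k (fun j => q (FreeAlgebra.ι k j)) w (s : ℤ)) *
        Module.finrank k ↥(X ⊓ coradical k H) := by
  obtain ⟨r, e, hr, hFA, heC, hcov⟩ := fam_cor hd q hq s
  have hXe : X ≤ Submodule.span k (Set.range e) * coradical k H := by
    refine hXC.trans ?_
    rw [hcov, mul_assoc]
    exact mul_le_mul' le_rfl ((mul_le_mul' hd.ctx.KA le_rfl).trans hd.ctx.hA.mul_le)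
  have h2 := fam_upper k hd.ctx.hA hFA hX hXs hXe
  rwa [Fintype.card_fin, hr] at h2

end rank

end Pool.Agent.GKW
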