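import Pool.Agent.Lib_helper2.GKW.W9

/-!
# Simple subcoalgebras outside a Hopf subalgebra of the coradical
(the first lemmas are copied from `Pool.Agent.Lib_helper54.GKP.LAR`)
-/

set_option autoImplicit false

universe u v

namespace Pool.Agent.GKW

open TensorProduct Pool.Agent.GK Pool.Agent.GKC Pool.Agent.GKP Filter Topology

section bialg
variable (k : Type u) [Field k] {H : Type v} [Ring H] [Bialgebra k H]

include k in
private theorem one_ne : (1 : H) ≠ 0 := by
  intro h
  have h2 := congrArg (Coalgebra.counit (R := k)) h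
  rw [Bialgebra.counit_one, map_zero] at h2
  exact one_ne_zero h2

private theorem simple_one : IsSimpleSubcoalgebra k (Submodule.span k {(1 : H)}) := by
  refine ⟨?_, ?_, ?_⟩
  · rw [← Submodule.one_eq_span]
    exact sub_one_mem
  · intro h
    exact one_ne k ((Submodule.span_singleton_eq_bot.1 h))
  · intro E _ hE
    by_cases h0 : E = ⊥
    · exact Or.inl h0
    right
    refine le_antisymm hE ?_
    obtain ⟨x, hx, hx0⟩ := (Submodule.ne_bot_iff E).1 h0
    obtain ⟨c, rfl⟩ := Submodule.mem_span_singleton.1 (hE hx)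
    rw [Submodule.span_singleton_le_iff_mem]
    have hc : c ≠ 0 := by
      rintro rfl
      exact hx0 (zero_smul _ _)
    have h2 := E.smul_mem c⁻¹ hx
    rwa [smul_smul, inv_mul_cancel₀ hc, one_smul] at h2

private theorem simple_sup {E : Submodule k H} (hE : IsSimpleSubcoalgebra k E)
    (t : Finset (Submodule k H)) (ht : ∀ D ∈ t, IsSubcoalgebra k D) (h : E ≤ t.sup id) :
    ∃ D ∈ t, E ≤ D := by
  classical
  have h2 : IsSubcoalgebra k (t.sup id) ∧ (E ≤ t.sup id → ∃ D ∈ t, E ≤ D) := by
    clear h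
    induction t using Finset.induction_on with
    | empty =>
      refine ⟨?_, fun h => ?_⟩
      · rw [Finset.sup_empty]
        intro x hx
        rw [Submodule.mem_bot] at hx
        rw [hx, map_zero]
        exact Submodule.zero_mem _
      · rw [Finset.sup_empty] at h
        exact absurd (le_bot_iff.1 h) hE.2.1
    | insert a s ha ih =>
      obtain ⟨h3, h4⟩ := ih (fun D hD => ht D (Finset.mem_insert_of_mem hD))
      have h5 := ht a (Finset.mem_insert_self a s)
      rw [Finset.sup_insert, id_eq]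
      refine ⟨cs_sup k h5 h3, fun h => ?_⟩
      rcases cs_simple_sup k h5 h3 hE h with h6 | h6
      · exact ⟨a, Finset.mem_insert_self a s, h6⟩
      · obtain ⟨D, hD, h7⟩ := h4 h6
        exact ⟨D, Finset.mem_insert_of_mem hD, h7⟩
  exact h2.2 h

private theorem fin_sup {V : Submodule k H} (hV : V.FG) (s : Set (Submodule k H))
    (h : V ≤ sSup s) : ∃ t : Finset (Submodule k H), ↑t ⊆ s ∧ V ≤ t.sup id :=
  (CompleteLattice.isCompactElement_iff_exists_le_sSup_of_le_sSup _ V).1
    ((Submodule.fg_iff_compact V).1 hV) s h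

/-- the integral -/
private theorem exists_int : ∃ l : Module.Dual k H, l 1 = 1 ∧
    ∀ x ∈ coradical k H, FLAG_R k l x = l x • (1 : H) := by
  set T : Submodule k H := sSup {D | IsSimpleSubcoalgebra k D ∧ D ≠ Submodule.span k {(1 : H)}}
    with hT
  have h1 : (1 : H) ∉ T := by
    intro h
    have h2 : Submodule.span k {(1 : H)} ≤ T := by
      rwa [Submodule.span_singleton_le_iff_mem]
    obtain ⟨t, ht, h3⟩ := fin_sup k (Submodule.fg_span_singleton 1) _ h2
    obtain ⟨D, hD, h4⟩ := simple_sup k (simple_one k) t (fun D hD => (ht hD).1.1) h3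
    have h5 : IsSimpleSubcoalgebra k D ∧ D ≠ Submodule.span k {(1 : H)} := ht hD
    rcases h5.1.2.2 _ (simple_one k).1 h4 with h6 | h6
    · exact (simple_one k).2.1 h6
    · exact h5.2 h6.symm
  obtain ⟨l, hl, hl1⟩ := exists_Van k h1
  refine ⟨l, hl1, fun x hx => ?_⟩
  have h2 : coradical k H ≤
      LinearMap.ker (FLAG_R k l - (LinearMap.toSpanSingleton k H (1 : H)) ∘ₗ l) := by
    refine sSup_le fun D hD => ?_
    intro y hy
    rw [LinearMap.mem_ker, LinearMap.sub_apply, LinearMap.comp_apply,
      LinearMap.toSpanSingleton_apply, sub_eq_zero]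
    by_cases hD1 : D = Submodule.span k {(1 : H)}
    · rw [hD1] at hy
      obtain ⟨c, rfl⟩ := Submodule.mem_span_singleton.1 hy
      rw [map_smul, FLAG_R_one, map_smul, smul_assoc]
    · have h3 : D ≤ T := le_sSup ⟨hD, hD1⟩
      have h4 : ∀ z ∈ D, l z = 0 := fun z hz => hl z (h3 hz)
      rw [h4 y hy, zero_smul, FLAG_R_apply]
      have h5 : tsp k D D ≤ LinearMap.ker ((TensorProduct.lid k H).toLinearMap ∘ₗ
          LinearMap.rTensor H l) := by
        rw [tsp_le]
        intro a ha b _
        simp [h4 a ha]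
      exact h5 (hD.1 y hy)
  have h3 := h2 hx
  rw [LinearMap.mem_ker, LinearMap.sub_apply, LinearMap.comp_apply,
    LinearMap.toSpanSingleton_apply, sub_eq_zero] at h3
  exact h3

/-- a nonzero subcoalgebra has an element of counit one -/
private theorem exists_counit {D : Submodule k H} (hD : IsSubcoalgebra k D) (h0 : D ≠ ⊥) :
    ∃ d ∈ D, Coalgebra.counit (R := k) d = 1 := by
  by_contra hcon
  apply h0
  rw [eq_bot_iff]
  intro x hx
  have h1 : Van k D (Coalgebra.counit (R := k) (A := H)) := by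
    intro y hy
    by_contra hy0
    exact hcon ⟨(Coalgebra.counit (R := k) y)⁻¹ • y, D.smul_mem _ hy, by
      rw [map_smul, smul_eq_mul, inv_mul_cancel₀ hy0]⟩
  have h2 := rid_lTensor_zero k h1 (hD x hx)
  rw [← FLAG_L_apply, FLAG_Lcounit] at h2
  rw [h2]
  exact Submodule.zero_mem _

end bialg

section hopf
variable (k : Type u) [Field k] {H : Type v} [Ring H] [HopfAlgebra k H]

/-- `d₁ ⊗ d₂ S(d₃) = d ⊗ 1` -/
private theorem lar_three (d : H) :
    LinearMap.lTensor H (LinearMap.mul' k H ∘ₗ LinearMap.lTensor H (HopfAlgebra.antipode k))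
      (TensorProduct.assoc k H H H (LinearMap.rTensor H (Coalgebra.comul (R := k))
        (Coalgebra.comul (R := k) d))) = d ⊗ₜ[k] (1 : H) := by
  rw [Coalgebra.coassoc_apply, ← LinearMap.comp_apply, ← LinearMap.lTensor_comp,
    LinearMap.comp_assoc, HopfAlgebra.mul_antipode_lTensor_comul, LinearMap.lTensor_comp,
    LinearMap.comp_apply, Coalgebra.lTensor_counit_comul, LinearMap.lTensor_tmul,
    Algebra.linearMap_apply, map_one]

/-- `(**)`: `λ(x₁ d) x₂ = λ(x d₁) S(d₂)` -/
private theorem lar_star {l : Module.Dual k H} {A : Submodule k H}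
    (hA : IsHopfSubalgebra k A) (hl : ∀ x ∈ A, FLAG_R k l x = l x • (1 : H))
    {x d : H} (hx : x ∈ A) (hd : d ∈ A) :
    FLAG_R k (l ∘ₗ LinearMap.mulRight k d) x =
      HopfAlgebra.antipode k (FLAG_R k (l ∘ₗ LinearMap.mulLeft k x) d) := by
  -- the two sides of the middle expression
  let P : H ⊗[k] H →ₗ[k] H := LinearMap.mul' k H ∘ₗ
    TensorProduct.map (FLAG_R k l ∘ₗ LinearMap.mulLeft k x) (HopfAlgebra.antipode k)
  have h1 : P (Coalgebra.comul (R := k) d) =
      HopfAlgebra.antipode k (FLAG_R k (l ∘ₗ LinearMap.mulLeft k x) d) := by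
    have h2 : tsp k A A ≤ LinearMap.ker (P - HopfAlgebra.antipode k ∘ₗ
        (TensorProduct.lid k H).toLinearMap ∘ₗ LinearMap.rTensor H (l ∘ₗ
          LinearMap.mulLeft k x)) := by
      rw [tsp_le]
      intro a ha b _
      rw [LinearMap.mem_ker, LinearMap.sub_apply, sub_eq_zero]
      simp only [P, LinearMap.comp_apply, TensorProduct.map_tmul, LinearMap.mul'_apply,
        LinearMap.mulLeft_apply, LinearEquiv.coe_coe, LinearMap.rTensor_tmul,
        TensorProduct.lid_tmul, map_smul]
      rw [hl _ (hA.mul_mem x hx a ha), smul_mul_assoc, one_mul]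
    have h3 := h2 (hA.sub d hd)
    rw [LinearMap.mem_ker, LinearMap.sub_apply, sub_eq_zero] at h3
    exact h3
  have h2 : ∀ t s : H ⊗[k] H, ∀ c : H,
      (TensorProduct.lid k H (LinearMap.rTensor H l (t * s))) * HopfAlgebra.antipode k c =
      TensorProduct.lid k H (LinearMap.rTensor H l (t * LinearMap.lTensor H
        (LinearMap.mul' k H ∘ₗ LinearMap.lTensor H (HopfAlgebra.antipode k))
        (TensorProduct.assoc k H H H (s ⊗ₜ[k] c)))) := by
    intro t s c
    induction s with
    | zero => simp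
    | add s s' hs hs' => 
      rw [TensorProduct.add_tmul]
      simp only [map_add, mul_add, add_mul, hs, hs']
    | tmul a b =>
      induction t with
      | zero => simp
      | add t t' ht ht' => simp only [map_add, add_mul, ht, ht']
      | tmul u w =>
        simp only [Algebra.TensorProduct.tmul_mul_tmul, LinearMap.rTensor_tmul,
          TensorProduct.lid_tmul, TensorProduct.assoc_tmul, LinearMap.lTensor_tmul,
          LinearMap.comp_apply, LinearMap.mul'_apply, smul_mul_assoc, mul_assoc]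
  have h3 : ∀ s : H ⊗[k] H, P s = TensorProduct.lid k H (LinearMap.rTensor H l
      (Coalgebra.comul (R := k) x * LinearMap.lTensor H
        (LinearMap.mul' k H ∘ₗ LinearMap.lTensor H (HopfAlgebra.antipode k))
        (TensorProduct.assoc k H H H (LinearMap.rTensor H (Coalgebra.comul (R := k)) s)))) := by
    intro s
    induction s with
    | zero => simp
    | add s s' hs hs' => simp only [map_add, mul_add, hs, hs']
    | tmul a b =>
      rw [LinearMap.rTensor_tmul, ← h2, ← Bialgebra.comul_mul]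
      simp only [P, LinearMap.comp_apply, TensorProduct.map_tmul, LinearMap.mul'_apply,
        LinearMap.mulLeft_apply, FLAG_R_apply]
  rw [← h1, h3, lar_three, FLAG_R_apply]
  generalize Coalgebra.comul (R := k) x = t
  induction t with
  | zero => simp
  | add t t' ht ht' => simp only [map_add, add_mul, ht, ht']
  | tmul u w => simp

theorem map_antipode_le {A D : Submodule k H} (hA : IsHopfSubalgebra k A) (h : D ≤ A) :
    D.map (HopfAlgebra.antipode k) ≤ A := by
  rintro _ ⟨x, hx, rfl⟩
  exact hA.antipode_mem x (h hx)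

/-- `P F` meets the Hopf subalgebra `K'` in zero if the simple subcoalgebra `F` is not contained in it -/
theorem simple_mul_inf (hA : IsHopfSubalgebra k (coradical k H)) {K' P F : Submodule k H}
    (hK' : IsHopfSubalgebra k K') (hKA : K' ≤ coradical k H) (hP : IsSubcoalgebra k P) (hPK : P ≤ K')
    (hF : IsSimpleSubcoalgebra k F) (hFK : ¬ F ≤ K') : (P * F) ⊓ K' = ⊥ := by
  by_contra hne
  apply hFK
  have hFA : F ≤ coradical k H := le_sSup hF
  have hPF : IsSubcoalgebra k (P * F) :=
    (sub_iff k).2 ⟨LS_mul k (LS_of_sub k hP) (LS_of_sub k hF.1), RS_mul k (RS_of_sub k hP) (RS_of_sub k hF.1)⟩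
  obtain ⟨D, hD, hDle⟩ := cs_exists k (cs_inf k hPF hK'.sub) hne
  obtain ⟨l, hl1, hl⟩ := exists_int k (H := H)
  obtain ⟨d, hd, hd1⟩ := exists_counit k hD.1 hD.2.1
  -- `1 = S(d₁) d₂`
  have h1 : ∃ z ∈ D.map (HopfAlgebra.antipode k), ∃ y ∈ D, l (z * y) ≠ 0 := by
    by_contra hcon
    push Not at hcon
    have h2 : tsp k D D ≤ LinearMap.ker (l ∘ₗ LinearMap.mul' k H ∘ₗ
        LinearMap.rTensor H (HopfAlgebra.antipode k)) := by
      rw [tsp_le]
      intro a ha b hb
      rw [LinearMap.mem_ker]
      simp only [LinearMap.comp_apply, LinearMap.rTensor_tmul, LinearMap.mul'_apply]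
      exact hcon _ ⟨a, ha, rfl⟩ b hb
    have h3 := h2 (hD.1 d hd)
    rw [LinearMap.mem_ker, LinearMap.comp_apply, LinearMap.comp_apply,
      HopfAlgebra.mul_antipode_rTensor_comul_apply, hd1, map_one, hl1] at h3
    exact one_ne_zero h3
  obtain ⟨z, hz, y, hy, hzy⟩ := h1
  have hzK : z ∈ K' := map_antipode_le k hK' (hDle.trans inf_le_right) hz
  -- an element of `K' F` with nonzero integral
  obtain ⟨p, hp, f, hf, hpf⟩ : ∃ p ∈ K', ∃ f ∈ F, l (p * f) ≠ 0 := by
    by_contra hcon
    push Not at hcon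
    have h2 : P * F ≤ LinearMap.ker (l ∘ₗ LinearMap.mulLeft k z) := by
      rw [Submodule.mul_le]
      intro p hp f hf
      rw [LinearMap.mem_ker, LinearMap.comp_apply, LinearMap.mulLeft_apply, ← mul_assoc]
      exact hcon _ (hK'.mul_mem z hzK p (hPK hp)) f hf
    exact hzy (h2 (hDle.trans inf_le_left hy))
  have h4 := lar_star k hA hl (hKA hp) (hFA hf)
  have h5 : FLAG_R k (l ∘ₗ LinearMap.mulRight k f) p ∈ K' ⊓ F.map (HopfAlgebra.antipode k) := by
    refine ⟨RS_of_sub k hK'.sub _ p hp, ?_⟩
    rw [h4]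
    exact ⟨_, RS_of_sub k hF.1 _ f hf, rfl⟩
  have h6 : K' ⊓ F.map (HopfAlgebra.antipode k) ≠ ⊥ := by
    intro h7
    rw [h7, Submodule.mem_bot] at h5
    have h8 := FLAG_counitR k (l ∘ₗ LinearMap.mulRight k f) p
    rw [h5, map_zero, LinearMap.comp_apply, LinearMap.mulRight_apply] at h8
    exact hpf h8.symm
  obtain ⟨D', hD', hD'le⟩ := cs_exists k (cs_inf k hK'.sub (ac_sub k hF.1)) h6
  have h7 : D'.map (HopfAlgebra.antipode k) ≤ F := by
    have := Submodule.map_mono (f := HopfAlgebra.antipode k) (hD'le.trans inf_le_right)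
    rwa [lar_simple k hA hF] at this
  have h8 : D'.map (HopfAlgebra.antipode k) ≠ ⊥ := by
    obtain ⟨d', hd', hd1'⟩ := exists_counit k hD'.1 hD'.2.1
    intro h9
    have h10 : HopfAlgebra.antipode k d' ∈ D'.map (HopfAlgebra.antipode k) := Submodule.mem_map_of_mem hd'
    rw [h9, Submodule.mem_bot] at h10
    have h11 := congrArg (Coalgebra.counit (R := k) (A := H)) h10
    rw [HopfAlgebra.counit_antipode, hd1', map_zero] at h11
    exact one_ne_zero h11
  rcases hF.2.2 _ (ac_sub k hD'.1) h7 with h9 | h9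
  · exact absurd h9 h8
  · rw [← h9]
    exact map_antipode_le k hK' (hD'le.trans inf_le_left)

end hopf

end Pool.Agent.GKW
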