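import Pool.Agent.Lib_helper2.GKW.W10

/-!
# Orbits of subcoalgebras of the coradical
-/

set_option autoImplicit false

universe u v

namespace Pool.Agent.GKW

open TensorProduct Pool.Agent.GK Pool.Agent.GKP Pool.Agent.GKC Pool.Agent.GKU Pool.Agent.GKV

section hopf
variable {k : Type u} [Field k] {H : Type v} [Ring H] [HopfAlgebra k H]

theorem simple_biSup {F : Submodule k H} (hF : IsSimpleSubcoalgebra k F) {ι : Type*} (t : Finset ι)
    (D : ι → Submodule k H) (hD : ∀ i ∈ t, IsSubcoalgebra k (D i)) (h : F ≤ ⨆ i ∈ t, D i) : ∃ i ∈ t, F ≤ D i := by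
  classical
  induction t using Finset.induction_on with
  | empty =>
    simp only [Finset.notMem_empty, iSup_false, iSup_bot, le_bot_iff] at h
    exact absurd h hF.2.1
  | insert a t ha ih =>
    rw [Finset.iSup_insert] at h
    have hs : IsSubcoalgebra k (⨆ i ∈ t, D i) :=
      (sub_iff k).2 ⟨LS_iSup k fun i => LS_iSup k fun hi => LS_of_sub k (hD i (Finset.mem_insert_of_mem hi)),
        RS_iSup k fun i => RS_iSup k fun hi => RS_of_sub k (hD i (Finset.mem_insert_of_mem hi))⟩
    rcases cs_simple_sup k (hD a (Finset.mem_insert_self a t)) hs hF h with h1 | h1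
    · exact ⟨a, Finset.mem_insert_self a t, h1⟩
    · obtain ⟨i, hi, h2⟩ := ih (fun i hi => hD i (Finset.mem_insert_of_mem hi)) h1
      exact ⟨i, Finset.mem_insert_of_mem hi, h2⟩

theorem simple_cj (g : GroupLike k H) {F : Submodule k H} (hF : IsSimpleSubcoalgebra k F) :
    IsSimpleSubcoalgebra k (F.map (cj k g)) := by
  refine ⟨cj_sub k g hF.1, ?_, ?_⟩
  · obtain ⟨x, hx, hx0⟩ := (Submodule.ne_bot_iff F).1 hF.2.1
    intro h
    apply hx0
    have h3 : cj k g x ∈ F.map (cj k g) := Submodule.mem_map_of_mem hx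
    rw [h, Submodule.mem_bot] at h3
    rw [← cj_inv_cj k g x, h3, map_zero]
  · intro E hE hEF
    have h3 : (E.map (cj k g⁻¹)) ≤ F := by
      rw [Submodule.map_le_iff_le_comap]
      intro y hy
      obtain ⟨x, hx, rfl⟩ := hEF hy
      rw [Submodule.mem_comap, cj_inv_cj]
      exact hx
    have h4 : (E.map (cj k g⁻¹)).map (cj k g) = E := by
      ext y
      constructor
      · rintro ⟨_, ⟨z, hz, rfl⟩, rfl⟩
        rw [cj_cj_inv]
        exact hz
      · intro hy
        exact ⟨cj k g⁻¹ y, ⟨y, hy, rfl⟩, cj_cj_inv k g y⟩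
    rcases hF.2.2 _ (cj_sub k g⁻¹ hE) h3 with h | h
    · left
      rw [← h4, h, Submodule.map_bot]
    · right
      rw [← h4, h]

/-- the simple subcoalgebras of an orbit have bounded dimension -/
theorem finrank_simple_ob {S : Finset (GroupLike k H)} {X : Submodule k H} (hXf : X.FG) (hXs : IsSubcoalgebra k X)
    (j : ℕ) : ∀ F : Submodule k H, IsSimpleSubcoalgebra k F → F ≤ ob k S X j →
      Module.finrank k F ≤ Module.finrank k X := by
  induction j with
  | zero =>
    intro F _ hFX
    have : Module.Finite k ↥X := Module.Finite.iff_fg.2 hXf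
    exact Submodule.finrank_mono hFX
  | succ j ih =>
    intro F hF hFX
    obtain ⟨s, hs, h1⟩ := simple_biSup hF S (fun s => (ob k S X j).map (cj k s))
      (fun s _ => cj_sub k s (ob_sub hXs j)) hFX
    have h2 : F.map (cj k s⁻¹) ≤ ob k S X j := by
      rw [Submodule.map_le_iff_le_comap]
      intro y hy
      obtain ⟨x, hx, rfl⟩ := h1 hy
      rw [Submodule.mem_comap, cj_inv_cj]
      exact hx
    have h3 := ih _ (simple_cj s⁻¹ hF) h2
    refine le_trans ?_ h3
    have hinj : Function.Injective (cj k s⁻¹) := by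
      intro a b hab
      rw [← cj_cj_inv k s a, hab, cj_cj_inv]
    exact (LinearEquiv.finrank_eq (Submodule.equivMapOfInjective (cj k s⁻¹) hinj F)).le

/-- `P` is contained in `P F S(F)` -/
theorem le_mul_antipode {P F : Submodule k H} (hF : IsSimpleSubcoalgebra k F) :
    P ≤ P * F * F.map (HopfAlgebra.antipode k) := by
  obtain ⟨d, hd, hd1⟩ : ∃ d ∈ F, Coalgebra.counit (R := k) d = 1 := by
    by_contra hcon
    apply hF.2.1
    rw [eq_bot_iff]
    intro x hx
    have h1 : Van k F (Coalgebra.counit (R := k) (A := H)) := by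
      intro y hy
      by_contra hy0
      exact hcon ⟨(Coalgebra.counit (R := k) y)⁻¹ • y, F.smul_mem _ hy, by
        rw [map_smul, smul_eq_mul, inv_mul_cancel₀ hy0]⟩
    have h2 := rid_lTensor_zero k h1 (hF.1 x hx)
    rw [← FLAG_L_apply, FLAG_Lcounit] at h2
    rw [h2]
    exact Submodule.zero_mem _
  have h1 : (1 : H) ∈ F * F.map (HopfAlgebra.antipode k) := by
    have h2 : tsp k F F ≤ (F * F.map (HopfAlgebra.antipode k)).comap (LinearMap.mul' k H ∘ₗ
        LinearMap.lTensor H (HopfAlgebra.antipode k)) := by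
      rw [tsp_le]
      intro a ha b hb
      rw [Submodule.mem_comap]
      simp only [LinearMap.comp_apply, LinearMap.lTensor_tmul, LinearMap.mul'_apply]
      exact Submodule.mul_mem_mul ha ⟨b, hb, rfl⟩
    have h3 := h2 (hF.1 d hd)
    rw [Submodule.mem_comap, LinearMap.comp_apply,
      HopfAlgebra.mul_antipode_lTensor_comul_apply, hd1, map_one] at h3
    exact h3
  intro x hx
  have := Submodule.mul_mem_mul hx h1
  rwa [mul_one, ← mul_assoc] at this

theorem hopf_Kc {E : Submodule k H} (h1 : (1 : H) ∈ E) (hE : IsSubcoalgebra k E)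
    (hS : ∀ x ∈ E, HopfAlgebra.antipode k x ∈ E) : IsHopfSubalgebra k (Kc k E) where
  one_mem := (kc_facts k h1).1
  mul_mem := fun a ha b hb => (kc_facts k h1).2.2.1 (Submodule.mul_mem_mul ha hb)
  sub := (kc_facts k h1).2.2.2.2.2 hE
  antipode_mem := by
    intro a ha
    obtain ⟨n, hn⟩ := (kc_facts k h1).2.2.2.2.1 (Submodule.span k {a}) (Submodule.fg_span_singleton a)
      ((Submodule.span_singleton_le_iff_mem _ _).2 ha)
    exact (kc_facts k h1).2.2.2.1 n (ant_pow' k hS n a (hn (Submodule.mem_span_singleton_self a)))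

theorem Kc_mono' {E E' : Submodule k H} (h : E ≤ E') : Kc k E ≤ Kc k E' :=
  iSup_mono fun n => pow_le_pow_left' h n

/-- infinite dimension, or the algebra generated by the orbit is finitely generated -/
theorem orbit_fg (hA : IsHopfSubalgebra k (coradical k H)) {S : Finset (GroupLike k H)} (hS : Sym k S)
    {E : Submodule k H} (hEf : E.FG) (hEs : IsSubcoalgebra k E) (h1E : (1 : H) ∈ E) (hEA : E ≤ coradical k H)
    (hES : ∀ x ∈ E, HopfAlgebra.antipode k x ∈ E) :
    GKdim k H = ⊤ ∨ ∃ j, ob k S E (j + 1) ≤ Kc k (ob k S E j) := by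
  classical
  by_cases hst : ∃ j, ob k S E (j + 1) ≤ Kc k (ob k S E j)
  · exact Or.inr hst
  left
  push Not at hst
  have h1O : ∀ j, (1 : H) ∈ ob k S E j := fun j => ob_mono k S E hS.1 (Nat.zero_le j) h1E
  have hOA : ∀ j, ob k S E j ≤ coradical k H := fun j => ob_le hEA (cj_cor hA _) j
  have hKH : ∀ j, IsHopfSubalgebra k (Kc k (ob k S E j)) := fun j =>
    hopf_Kc (h1O j) (ob_sub hEs j) (ob_ant hES j)
  have hKA : ∀ j, Kc k (ob k S E j) ≤ coradical k H := by
    intro j
    refine iSup_le fun n => ?_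
    induction n with
    | zero => rw [pow_zero]; exact Submodule.one_le.2 hA.one_mem
    | succ n ih => rw [pow_succ]; exact (mul_le_mul' ih (hOA j)).trans hA.mul_le
  have hF : ∀ j, ∃ F : Submodule k H, IsSimpleSubcoalgebra k F ∧ F ≤ ob k S E (j + 1) ∧
      ¬ F ≤ Kc k (ob k S E j) := by
    intro j
    by_contra hcon
    push Not at hcon
    apply hst j
    refine (cs_main k (ob_sub hEs (j + 1)) (hOA (j + 1))).trans (sSup_le ?_)
    rintro F ⟨hF, hF'⟩
    exact hcon F hF hF'
  choose F hF1 hF2 hF3 using hF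
  set e : ℕ := Module.finrank k E with he
  have hFe : ∀ j, Module.finrank k ↥(F j) ≤ e := fun j => finrank_simple_ob hEf hEs (j + 1) _ (hF1 j) (hF2 j)
  have hFf : ∀ j, (F j).FG := fun j => cs_fg k (hF1 j)
  have he1 : 1 ≤ e := by
    rw [he, Nat.one_le_iff_ne_zero]
    have : Module.Finite k ↥E := Module.Finite.iff_fg.2 hEf
    intro h0
    rw [Submodule.finrank_eq_zero] at h0
    rw [h0, Submodule.mem_bot] at h1E
    have := congrArg (Coalgebra.counit (R := k)) h1E
    rw [Bialgebra.counit_one, map_zero] at this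
    exact one_ne_zero this
  -- the products
  obtain ⟨P, hP0, hPs⟩ : ∃ P : ℕ → Submodule k H, P 0 = 1 ∧ ∀ j, P (j + 1) = P j ⊔ P j * F j :=
    ⟨fun j => Nat.rec (1 : Submodule k H) (fun j Q => Q ⊔ Q * F j) j, rfl, fun j => rfl⟩
  have hPK : ∀ j, P j ≤ Kc k (ob k S E j) := by
    intro j
    induction j with
    | zero => rw [hP0]; exact Submodule.one_le.2 (hKH 0).one_mem
    | succ j ih =>
      rw [hPs]
      have h1 : Kc k (ob k S E j) ≤ Kc k (ob k S E (j + 1)) := Kc_mono' (ob_le_succ k S E hS.1 j)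
      refine sup_le (ih.trans h1) ?_
      exact (mul_le_mul' (ih.trans h1) ((hF2 j).trans (kc_facts k (h1O (j + 1))).2.1)).trans (hKH (j + 1)).mul_le
  have hPsub : ∀ j, IsSubcoalgebra k (P j) := by
    intro j
    induction j with
    | zero => rw [hP0]; exact GKC.sub_one_mem
    | succ j ih =>
      rw [hPs]
      exact cs_sup k ih (GKC.sub_mul ih (hF1 j).1)
  have hPf : ∀ j, (P j).FG := by
    intro j
    induction j with
    | zero =>
      rw [hP0, Submodule.one_eq_span]
      exact Submodule.fg_span_singleton 1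
    | succ j ih =>
      rw [hPs]
      exact ih.sup (ih.mul (hFf j))
  have hfin : ∀ j, Module.Finite k ↥(P j) := fun j => Module.Finite.iff_fg.2 (hPf j)
  have hfinF : ∀ j, Module.Finite k ↥(F j) := fun j => Module.Finite.iff_fg.2 (hFf j)
  have hfinPF : ∀ j, Module.Finite k ↥(P j * F j) := fun j => Module.Finite.iff_fg.2 ((hPf j).mul (hFf j))
  -- growth
  have hgrow : ∀ j, (e + 1) * Module.finrank k ↥(P j) ≤ e * Module.finrank k ↥(P (j + 1)) := by
    intro j
    have hinf : P j ⊓ (P j * F j) = ⊥ := by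
      rw [eq_bot_iff, ← simple_mul_inf k hA (hKH j) (hKA j) (hPsub j) (hPK j) (hF1 j) (hF3 j)]
      exact le_inf inf_le_right (inf_le_left.trans (hPK j))
    have h1 := Submodule.finrank_sup_add_finrank_inf_eq (K := k) (P j) (P j * F j)
    rw [hinf, finrank_bot, add_zero] at h1
    have h2 : Module.finrank k ↥(P j) ≤ Module.finrank k ↥(P j * F j) * e := by
      have hSf : ((F j).map (HopfAlgebra.antipode k)).FG := (hFf j).map _
      have hfin3 : Module.Finite k ↥(P j * F j * (F j).map (HopfAlgebra.antipode k)) :=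
        Module.Finite.iff_fg.2 (((hPf j).mul (hFf j)).mul hSf)
      refine (Submodule.finrank_mono (le_mul_antipode (hF1 j))).trans ?_
      refine (finrank_mul_le' k _ _ ((hPf j).mul (hFf j)) hSf).trans (Nat.mul_le_mul_left _ ?_)
      exact (Submodule.finrank_map_le _ _).trans (hFe j)
    rw [hPs, h1]
    nlinarith
  have hgrow2 : ∀ j, (e + 1) ^ j ≤ e ^ j * Module.finrank k ↥(P j) := by
    intro j
    induction j with
    | zero =>
      have h3 : Module.finrank k ↥(1 : Submodule k H) = 1 := by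
        rw [Submodule.one_eq_span]
        have hnt : Nontrivial H := Bialgebra.nontrivial (R := k)
        exact finrank_span_singleton one_ne_zero
      rw [hP0, h3, pow_zero, pow_zero, mul_one]
    | succ j ih =>
      calc (e + 1) ^ (j + 1) = (e + 1) * (e + 1) ^ j := pow_succ' _ _
        _ ≤ (e + 1) * (e ^ j * Module.finrank k ↥(P j)) := Nat.mul_le_mul_left _ ih
        _ = e ^ j * ((e + 1) * Module.finrank k ↥(P j)) := by ring
        _ ≤ e ^ j * (e * Module.finrank k ↥(P (j + 1))) := Nat.mul_le_mul_left _ (hgrow j)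
        _ = e ^ (j + 1) * Module.finrank k ↥(P (j + 1)) := by ring
  have hgrow3 : ∀ t, 2 ^ t ≤ Module.finrank k ↥(P (e * t)) := by
    intro t
    have h1 : 2 * e ^ e ≤ (e + 1) ^ e := by
      have he0 : (0 : ℚ) < (e : ℚ) := by exact_mod_cast he1
      have h2 : (1 : ℚ) + (e : ℚ) * (1 / (e : ℚ)) ≤ (1 + 1 / (e : ℚ)) ^ e :=
        one_add_mul_le_pow (by
          have : (0 : ℚ) ≤ 1 / (e : ℚ) := by positivity
          linarith) e
      have h3 : ((2 * e ^ e : ℕ) : ℚ) ≤ (((e + 1) ^ e : ℕ) : ℚ) := by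
        push_cast
        calc (2 : ℚ) * (e : ℚ) ^ e = (1 + (e : ℚ) * (1 / (e : ℚ))) * (e : ℚ) ^ e := by
              rw [mul_one_div_cancel he0.ne']; ring
          _ ≤ (1 + 1 / (e : ℚ)) ^ e * (e : ℚ) ^ e := mul_le_mul_of_nonneg_right h2 (by positivity)
          _ = ((e : ℚ) + 1) ^ e := by
              rw [← mul_pow]
              congr 1
              field_simp
      exact_mod_cast h3
    have h2 := hgrow2 (e * t)
    rw [pow_mul, pow_mul] at h2
    have h3 : (2 * e ^ e) ^ t ≤ ((e + 1) ^ e) ^ t := Nat.pow_le_pow_left h1 t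
    rw [mul_pow] at h3
    have h4 : (e ^ e) ^ t * 2 ^ t ≤ (e ^ e) ^ t * Module.finrank k ↥(P (e * t)) := by
      rw [mul_comm]
      exact h3.trans h2
    exact Nat.le_of_mul_le_mul_left h4 (Nat.pos_of_ne_zero (by positivity))
  -- the subspace which generates
  set V : Submodule k H := E ⊔ kS k (S : Set (GroupLike k H)) with hV
  have h1V : (1 : Submodule k H) ≤ V := Submodule.one_le.2 (Submodule.mem_sup_left h1E)
  have hVf : V.FG := hEf.sup (kS_fg k S)
  have hSV : ∀ s ∈ S, s.val ∈ V ∧ (s⁻¹).val ∈ V := fun s hs =>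
    ⟨Submodule.mem_sup_right (Submodule.subset_span ⟨s, hs, rfl⟩),
      Submodule.mem_sup_right (Submodule.subset_span ⟨s⁻¹, hS.2 s hs, rfl⟩)⟩
  have hPV : ∀ j, P j ≤ V ^ (j * j + 2 * j) := by
    intro j
    induction j with
    | zero => rw [hP0]; simp
    | succ j ih =>
      rw [hPs]
      refine sup_le (ih.trans (pow_le_pow_right' h1V (by nlinarith))) ?_
      have h2 : F j ≤ V ^ (2 * (j + 1) + 1) := (hF2 j).trans (ob_pow hSV le_sup_left (j + 1))
      refine (mul_le_mul' ih h2).trans ?_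
      rw [← pow_add]
      exact pow_le_pow_right' h1V (by nlinarith)
  rw [← top_le_iff]
  refine le_trans ?_ (le_GKdim k h1V hVf)
  rw [asm_L_top k (V := V) (W := 3 * e * e) (by nlinarith)]
  intro t ht
  refine (hgrow3 t).trans ?_
  have hfinV : Module.Finite k ↥(V ^ (3 * e * e * t ^ 2)) := Module.Finite.iff_fg.2 (hVf.pow _)
  refine Submodule.finrank_mono ((hPV _).trans (pow_le_pow_right' h1V ?_))
  have h5 : 1 ≤ e * t := Nat.mul_pos he1 ht
  calc e * t * (e * t) + 2 * (e * t) ≤ e * t * (e * t) + 2 * (e * t) * (e * t) := by nlinarith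
    _ = 3 * e * e * t ^ 2 := by ring

end hopf

end Pool.Agent.GKW
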