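import Pool.Agent.Lib_helper2.GKW.W9
import Pool.Agent.Lib_helper2.GKW.W11

/-!
# The final form: no finiteness hypothesis
-/

set_option autoImplicit false

universe u v

namespace Pool.Agent.GKW

open TensorProduct Pool.Agent.GK Pool.Agent.GKP Pool.Agent.GKC Pool.Agent.GKU Pool.Agent.GKV

section fin
variable (k : Type u) [Field k] {H : Type v} [Ring H] [HopfAlgebra k H]

theorem Kc_le {O A : Submodule k H} (h1 : (1 : H) ∈ A) (hm : A * A ≤ A) (hO : O ≤ A) : Kc k O ≤ A := by
  refine iSup_le fun n => ?_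
  induction n with
  | zero => rw [pow_zero]; exact Submodule.one_le.2 h1
  | succ n ih => rw [pow_succ]; exact (mul_le_mul' ih hO).trans hm

theorem adjoin_Kc {O : Submodule k H} (hO : O.FG) (h1 : (1 : H) ∈ O) :
    ∃ s : Finset H, Subalgebra.toSubmodule (Algebra.adjoin k (s : Set H)) = Kc k O := by
  obtain ⟨s, hs⟩ := hO
  refine ⟨s, le_antisymm ?_ ?_⟩
  · intro x hx
    rw [Subalgebra.mem_toSubmodule] at hx
    induction hx using Algebra.adjoin_induction with
    | mem y hy =>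
      refine (kc_facts k h1).2.1 ?_
      rw [← hs]
      exact Submodule.subset_span hy
    | algebraMap r =>
      rw [Algebra.algebraMap_eq_smul_one]
      exact Submodule.smul_mem _ _ (kc_facts k h1).1
    | add y z _ _ hy hz => exact Submodule.add_mem _ hy hz
    | mul y z _ _ hy hz => exact (kc_facts k h1).2.2.1 (Submodule.mul_mem_mul hy hz)
  · refine Kc_le k (Subalgebra.one_mem _) ?_ ?_
    · rw [Submodule.mul_le]
      intro a ha b hb
      exact Subalgebra.mul_mem _ ha hb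
    · rw [← hs, Submodule.span_le]
      exact Algebra.subset_adjoin

theorem map_Kc_le (s : GroupLike k H) {O O' : Submodule k H} (h1 : (1 : H) ∈ O') (h : O.map (cj k s) ≤ O') :
    (Kc k O).map (cj k s) ≤ Kc k O' := by
  rw [Submodule.map_le_iff_le_comap]
  refine iSup_le fun n => ?_
  rw [← Submodule.map_le_iff_le_comap]
  induction n with
  | zero =>
    rw [pow_zero, Submodule.map_le_iff_le_comap, Submodule.one_le, Submodule.mem_comap]
    have : cj k s (1 : H) = 1 := by
      rw [cj_apply, one_mul, grp_mul_inv]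
    rw [this]
    exact (kc_facts k h1).1
  | succ n ih =>
    rw [pow_succ, Submodule.map_le_iff_le_comap, Submodule.mul_le]
    intro a ha b hb
    rw [Submodule.mem_comap]
    have : cj k s (a * b) = cj k s a * cj k s b := by
      simp only [cj_apply]
      have h3 : s.val * (a * (s⁻¹).val) * (s.val * (b * (s⁻¹).val)) =
          s.val * (a * (((s⁻¹).val * s.val) * (b * (s⁻¹).val))) := by simp only [mul_assoc]
      rw [h3, grp_inv_mul, one_mul, mul_assoc a b]
    rw [this]
    exact (kc_facts k h1).2.2.1 (Submodule.mul_mem_mul (ih ⟨a, ha, rfl⟩)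
      ((kc_facts k h1).2.1 (h ⟨b, hb, rfl⟩)))

/-- every finite-dimensional subspace of the coradical of `U` lies in a finitely generated stable Hopf
subalgebra -/
theorem stable_hopf (hA : IsHopfSubalgebra k (coradical k H)) {U : Submodule k H}
    (hUA : IsHopfSubalgebra k (U ⊓ coradical k H)) {Γ : Subgroup (GroupLike k H)}
    (hΓU : ConjStable k (Γ : Set (GroupLike k H)) U) (htop : GKdim k H ≠ ⊤)
    {S : Finset (GroupLike k H)} (hSΓ : (S : Set (GroupLike k H)) ⊆ Γ) {V : Submodule k H} (hV : V.FG)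
    (hVA : V ≤ U ⊓ coradical k H) :
    ∃ L : Submodule k H, IsHopfSubalgebra k L ∧ V ≤ L ∧ L ≤ U ⊓ coradical k H ∧
      ConjStable k (S : Set (GroupLike k H)) L ∧
      ∃ s : Finset H, Subalgebra.toSubmodule (Algebra.adjoin k (s : Set H)) = L := by
  classical
  obtain ⟨T, hT, hST, hTΓ⟩ := exists_sym_in k S hSΓ
  obtain ⟨E1, hE1f, hE1s, hVE1, h1E1, hE1A, hE1S⟩ := lar_main k hA hV (hVA.trans inf_le_right)
  set E : Submodule k H := E1 ⊓ (U ⊓ coradical k H) with hE
  have hEf : E.FG := fg_of_le k hE1f inf_le_left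
  have hEA : E ≤ U ⊓ coradical k H := inf_le_right
  have h1E : (1 : H) ∈ E := ⟨h1E1, hUA.one_mem⟩
  have hEs : IsSubcoalgebra k E := cs_inf k hE1s hUA.sub
  have hES : ∀ x ∈ E, HopfAlgebra.antipode k x ∈ E := fun x hx => ⟨hE1S x hx.1, hUA.antipode_mem x hx.2⟩
  have hTA : GKC.Stb k (T : Set (GroupLike k H)) (U ⊓ coradical k H) := by
    intro s hs
    rw [Submodule.map_le_iff_le_comap]
    rintro y ⟨hy, hyc⟩
    refine ⟨?_, cor_cj s hyc⟩
    rw [cj_apply, ← mul_assoc]
    exact hΓU s (hTΓ hs) y hy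
  rcases orbit_fg hA hT hEf hEs h1E (hEA.trans inf_le_right) hES with h | ⟨j, hj⟩
  · exact absurd h htop
  have h1O : (1 : H) ∈ ob k T E j := ob_mono k T E hT.1 (Nat.zero_le j) h1E
  have hOA : ob k T E j ≤ U ⊓ coradical k H := ob_le hEA hTA j
  refine ⟨Kc k (ob k T E j), hopf_Kc h1O (ob_sub hEs j) (ob_ant hES j), ?_,
    Kc_le k hUA.one_mem hUA.mul_le hOA, ?_, adjoin_Kc k (ob_fg k T E hEf j) h1O⟩
  · exact ((le_inf hVE1 hVA).trans (ob_mono k T E hT.1 (Nat.zero_le j))).trans (kc_facts k h1O).2.1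
  · intro s hs y hy
    have h2 := map_Kc_le k s (O := ob k T E j) (O' := ob k T E (j + 1))
      (ob_mono k T E hT.1 (Nat.zero_le _) h1E) (ob_map k T E j (hST hs)) (Submodule.mem_map_of_mem hy)
    rw [cj_apply, ← mul_assoc] at h2
    exact Kc_le k (kc_facts k h1O).1 (kc_facts k h1O).2.2.1 hj h2

/-- The final form. -/
theorem main3 {U : Submodule k H} (hU : IsSubbialgebra k U)
    (hUA : IsHopfSubalgebra k (U ⊓ coradical k H))
    (hcomm : ∀ a ∈ U ⊓ coradical k H, ∀ b ∈ U ⊓ coradical k H, a * b = b * a)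
    (hnil : ∀ a ∈ U ⊓ coradical k H, ∀ x ∈ U, ∃ n : ℕ, (fun y => a * y - y * a)^[n] x = 0)
    {Γ : Subgroup (GroupLike k H)} (hΓU : ConjStable k (Γ : Set (GroupLike k H)) U)
    (hspan : U * Submodule.span k (GroupLike.val '' (Γ : Set (GroupLike k H))) = ⊤) :
    coradical k H = (U ⊓ coradical k H) * Submodule.span k (GroupLike.val '' (Γ : Set (GroupLike k H))) ∧
    (GKdim k H = ⊤ ∨
      ((∀ S : Finset (GroupLike k H), (S : Set (GroupLike k H)) ⊆ Γ → ∀ V : Submodule k H, V.FG → V ≤ U →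
        ∃ (X L : Submodule k H), X.FG ∧ (∃ s : Finset H, Subalgebra.toSubmodule (Algebra.adjoin k (s : Set H)) = L) ∧
          IsHopfSubalgebra k L ∧ L ≤ U ⊓ coradical k H ∧ V ≤ X * L ∧ X * L ≤ U ∧
          ConjStable k (S : Set (GroupLike k H)) (X * L)) ∧
      ∃ d m : ℕ, GKsub k (U ⊓ coradical k H) = d ∧ GKsub k U = d + m ∧
        GKdim k H = GKsub k (coradical k H) + m ∧
        ((∀ a ∈ coradical k H, ∀ b ∈ coradical k H, a * b = b * a) → ∃ e : ℕ, GKsub k (coradical k H) = e))) := by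
  have hA := cor_hopf hU hUA hΓU hspan
  refine ⟨cor_eq hU hspan, ?_⟩
  by_cases htop : GKdim k H = ⊤
  · exact Or.inl htop
  refine main k hA hU hUA hcomm hnil hΓU hspan ?_
  intro S hSΓ V hV hVA
  obtain ⟨L, h1, h2, h3, h4, h5⟩ := stable_hopf k hA hUA hΓU htop hSΓ hV hVA
  exact ⟨L, h5, h1, h2, h3, h4, Or.inl h5⟩

end fin

end Pool.Agent.GKW
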