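import Pool.Agent.Lib_helper2.GKW.W1

/-!
# Chains of Hopf modules in a module of finite rank
-/

set_option autoImplicit false

universe u v

namespace Pool.Agent.GKW

open TensorProduct Pool.Agent.GK Pool.Agent.GKP Pool.Agent.GKU

section rank
variable {k : Type u} [Field k] {H : Type v} [Ring H] [HopfAlgebra k H]

/-- a finite-dimensional subspace of a subcoalgebra lies in a finite-dimensional subcoalgebra -/
theorem fund_in {P X : Submodule k H} (hP : IsSubcoalgebra k P) (hX : X.FG) (hXP : X ≤ P) :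
    ∃ Z : Submodule k H, Z.FG ∧ IsSubcoalgebra k Z ∧ X ≤ Z ∧ Z ≤ P := by
  obtain ⟨C, h1, -, h2, h3⟩ := cs_fund k hX
  exact ⟨C ⊓ P, fg_of_le k h2 inf_le_left, cs_inf k h3 hP, le_inf h1 hXP, inf_le_right⟩

/-- a family which covers a Hopf module over a smaller one -/
theorem cover_fam {K T N P : Submodule k H} (hc : Ctx k (coradical k H) K T) (hN : IsSubcoalgebra k N)
    (hNK : N * K ≤ N) (hP : IsSubcoalgebra k P) (hPK : P * K ≤ P) (hNP : N ≤ P) (hPT : P ≤ T)
    (hf : ∃ X : Submodule k H, X.FG ∧ X ≤ P ∧ P ≤ N ⊔ X * K) :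
    ∃ (r : ℕ) (e : Fin r → H), Fam k K N e ∧ P = N ⊔ Submodule.span k (Set.range e) * K := by
  obtain ⟨X, hXf, hXP, hPX⟩ := hf
  obtain ⟨Z, hZf, hZs, hXZ, hZP⟩ := fund_in hP hXf hXP
  obtain ⟨r, e, hF, he, hcov⟩ := flag_exists k hc.hK (LS_of_sub k hN) hNK hZf hZs
    (simple_le k hc (hZP.trans hPT))
  refine ⟨r, e, hF, le_antisymm ?_ ?_⟩
  · refine hPX.trans (sup_le le_sup_left ?_)
    refine (mul_le_mul' (hXZ.trans hcov) le_rfl).trans ?_
    rw [Submodule.sup_mul, mul_assoc]
    exact sup_le_sup hNK (mul_le_mul' le_rfl hc.hK.mul_le)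
  · refine sup_le hNP ((mul_le_mul' (Submodule.span_le.2 ?_) le_rfl).trans hPK)
    rintro _ ⟨i, rfl⟩
    have h2 : (Z ⊓ K).map (HopfAlgebra.antipode k) ≤ K := by
      rw [Submodule.map_le_iff_le_comap]
      rintro y ⟨_, hyK⟩
      exact hc.hK.antipode_mem y hyK
    exact hPK (mul_le_mul' hZP h2 (he i))

/-- purity: a strictly bigger Hopf module is not contained in the sum with the null part -/
theorem not_le_null {K T N N' P : Submodule k H} (hc : Ctx k (coradical k H) K T) (hN : IsSubcoalgebra k N)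
    (hNK : N * K ≤ N) (hN' : IsSubcoalgebra k N') (hNK' : N' * K ≤ N') (hP : IsSubcoalgebra k P) (hPK : P * K ≤ P)
    (hlt : N < N') (hNP : N' ≤ P) (hPT : P ≤ T)
    (hf : ∃ X : Submodule k H, X.FG ∧ X ≤ N' ∧ N' ≤ N ⊔ X * K)
    (hf' : ∃ X : Submodule k H, X.FG ∧ X ≤ P ∧ P ≤ N' ⊔ X * K) : ¬ N' ≤ N ⊔ P * Kp k K := by
  intro hcon
  obtain ⟨r, e, hF, hcov⟩ := cover_fam hc hN hNK hN' hNK' hlt.le (hNP.trans hPT) hf
  obtain ⟨r', e', hF', hcov'⟩ := cover_fam hc hN' hNK' hP hPK hNP hPT hf'
  have hr : 0 < r := by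
    rw [Nat.pos_iff_ne_zero]
    rintro rfl
    rw [Set.range_eq_empty, Submodule.span_empty, Submodule.bot_mul, sup_bot_eq] at hcov
    exact hlt.ne hcov.symm
  have hFA := fam_append k hF hcov hF'
  have hPf : P = N ⊔ Submodule.span k (Set.range (Fin.append e e')) * K := by
    rw [range_append, Submodule.span_union, Submodule.sup_mul, ← sup_assoc, ← hcov]
    exact hcov'
  set f : Fin (r + r') → H := Fin.append e e' with hf
  have hKpK : K * Kp k K ≤ Kp k K := mul_Kp k hc.hK.mul_le
  have h1 : N ⊔ P * Kp k K ≤ N ⊔ Submodule.span k (Set.range f) * Kp k K := by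
    refine sup_le le_sup_left ?_
    conv_lhs => rw [hPf]
    rw [Submodule.sup_mul, mul_assoc]
    exact sup_le_sup ((mul_le_mul' le_rfl inf_le_left).trans hNK) (mul_le_mul' le_rfl hKpK)
  set i0 : Fin (r + r') := Fin.castAdd r' ⟨0, hr⟩ with hi0
  have hfi : f i0 ∈ N' := by
    rw [hf, hi0, Fin.append_left, hcov]
    exact Submodule.mem_sup_right (le_mul_one k hc.hK.one_mem _ (Submodule.subset_span ⟨_, rfl⟩))
  obtain ⟨y, hy, z, hz, hyz⟩ := Submodule.mem_sup.1 (h1 (hcon hfi))
  have h4 : ∃ a : Fin (r + r') → H, (∀ i, a i ∈ Kp k K) ∧ z = ∑ i, f i * a i := by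
    clear hyz
    induction hz using Submodule.mul_induction_on' with
    | mem_mul_mem u hu b hb =>
      obtain ⟨c, rfl⟩ := (Submodule.mem_span_range_iff_exists_fun k).1 hu
      refine ⟨fun i => c i • b, fun i => Submodule.smul_mem _ _ hb, ?_⟩
      rw [Finset.sum_mul]
      exact Finset.sum_congr rfl fun i _ => by rw [smul_mul_assoc, mul_smul_comm]
    | add u _ v _ ihu ihv =>
      obtain ⟨a, ha, rfl⟩ := ihu
      obtain ⟨b, hb, rfl⟩ := ihv
      refine ⟨fun i => a i + b i, fun i => Submodule.add_mem _ (ha i) (hb i), ?_⟩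
      rw [← Finset.sum_add_distrib]
      exact Finset.sum_congr rfl fun i _ => (mul_add _ _ _).symm
  obtain ⟨a, ha, rfl⟩ := h4
  have h5 : ∑ i, f i * ((if i = i0 then (1 : H) else 0) - a i) ∈ N := by
    have : ∑ i, f i * ((if i = i0 then (1 : H) else 0) - a i) = y := by
      simp only [mul_sub, Finset.sum_sub_distrib, mul_ite, mul_one, mul_zero, Finset.sum_ite_eq',
        Finset.mem_univ, if_true]
      rw [← hyz]
      abel
    rw [this]
    exact hy
  have h6 := fam_free k hc.hK hFA (fun i => (if i = i0 then (1 : H) else 0) - a i) (fun i => by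
    refine Submodule.sub_mem _ ?_ (ha i).1
    split_ifs
    · exact hc.hK.one_mem
    · exact Submodule.zero_mem _) h5 i0
  have h7 := congrArg (Coalgebra.counit (R := k) (A := H)) h6
  simp only [if_true, map_sub, Bialgebra.counit_one, map_zero] at h7
  have h8 : Coalgebra.counit (R := k) (a i0) = 0 := (ha i0).2
  rw [h8, sub_zero] at h7
  exact one_ne_zero h7

/-- the length of a chain of Hopf modules is at most the rank -/
theorem chain_rank {K T P : Submodule k H} (hc : Ctx k (coradical k H) K T) {r : ℕ} {e : Fin r → H}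
    (hPe : P = Submodule.span k (Set.range e) * K) (hP : IsSubcoalgebra k P) (hPT : P ≤ T)
    {N : ℕ → Submodule k H} (hN : ∀ t, IsSubcoalgebra k (N t)) (hNK : ∀ t, N t * K ≤ N t)
    (hlt : ∀ t, N t < N (t + 1)) (hf : ∀ t, ∃ X : Submodule k H, X.FG ∧ X ≤ N (t + 1) ∧ N (t + 1) ≤ N t ⊔ X * K)
    {j : ℕ} (hle : N j ≤ P) : j ≤ r := by
  classical
  have hPK : P * K ≤ P := by
    rw [hPe, mul_assoc]
    exact mul_le_mul' le_rfl hc.hK.mul_le
  have hspP : Submodule.span k (Set.range e) ≤ P := by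
    rw [hPe]
    exact le_mul_one k hc.hK.one_mem _
  have hmono : Monotone N := monotone_nat_of_le_succ fun t => (hlt t).le
  have hleP : ∀ t ≤ j, N t ≤ P := fun t ht => (hmono ht).trans hle
  set Q : Submodule k H := P * Kp k K with hQ
  have hPQ : P ≤ Submodule.span k (Set.range e) ⊔ Q := by
    conv_lhs => rw [hPe]
    refine (mul_le_mul' le_rfl (le_Kp k hc.hK.one_mem)).trans ?_
    rw [Submodule.mul_sup, ← Submodule.one_eq_span, mul_one]
    exact sup_le_sup le_rfl (mul_le_mul' hspP le_rfl)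
  have hmapP : P.map Q.mkQ ≤ Submodule.span k (Set.range fun i => Q.mkQ (e i)) := by
    refine (Submodule.map_mono hPQ).trans ?_
    rw [Submodule.map_sup, Submodule.mkQ_map_self, sup_bot_eq, Submodule.map_span, ← Set.range_comp]
    exact le_rfl
  have hfinS : Module.Finite k ↥(Submodule.span k (Set.range fun i => Q.mkQ (e i))) :=
    Module.Finite.span_of_finite k (Set.finite_range _)
  have hfinP : Module.Finite k ↥(P.map Q.mkQ) := Submodule.finiteDimensional_of_le hmapP
  have hr : Module.finrank k ↥(P.map Q.mkQ) ≤ r := by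
    refine (Submodule.finrank_mono hmapP).trans ((finrank_range_le_card (R := k) (fun i => Q.mkQ (e i))).trans ?_)
    rw [Fintype.card_fin]
  have hdim : ∀ t ≤ j, t ≤ Module.finrank k ↥((N t).map Q.mkQ) := by
    intro t
    induction t with
    | zero => exact fun _ => Nat.zero_le _
    | succ t ih =>
      intro ht
      have h1 := ih (by omega)
      have hfinN : Module.Finite k ↥((N (t + 1)).map Q.mkQ) :=
        Submodule.finiteDimensional_of_le (Submodule.map_mono (hleP (t + 1) ht))
      have hlt' : (N t).map Q.mkQ < (N (t + 1)).map Q.mkQ := by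
        refine lt_of_le_of_ne (Submodule.map_mono (hlt t).le) fun heq => ?_
        refine not_le_null hc (hN t) (hNK t) (hN (t + 1)) (hNK (t + 1)) hP hPK (hlt t) (hleP (t + 1) ht) hPT (hf t)
          ⟨Submodule.span k (Set.range e), ⟨(Finset.univ.image e), by simp⟩, hspP, ?_⟩ ?_
        · conv_lhs => rw [hPe]
          exact le_sup_right
        · have h2 : N (t + 1) ≤ ((N (t + 1)).map Q.mkQ).comap Q.mkQ := Submodule.le_comap_map _ _
          rw [← heq, Submodule.comap_map_mkQ] at h2
          rwa [sup_comm] at h2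
      have := Submodule.finrank_lt_finrank_of_lt hlt'
      omega
  exact (hdim j le_rfl).trans ((Submodule.finrank_mono (Submodule.map_mono hle)).trans hr)

end rank

end Pool.Agent.GKW
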