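import Pool.Agent.Lib_helper2.GKW.W2

/-!
# Systems of levels over a commutative Hopf subalgebra
-/

set_option autoImplicit false

universe u v

namespace Pool.Agent.GKW

open TensorProduct Pool.Agent.GK Pool.Agent.GKP Pool.Agent.GKU Pool.Agent.GKV

section bialg
variable (k : Type u) [Field k] {H : Type v} [Ring H] [Bialgebra k H]

theorem iter_mono_left {E E' X : Submodule k H} (h : E ≤ E') (j : ℕ) : (br k E)^[j] X ≤ (br k E')^[j] X := by
  induction j with
  | zero => exact le_rfl
  | succ j ih =>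
    rw [Function.iterate_succ_apply', Function.iterate_succ_apply']
    exact br_mono k h ih

theorem iter_bot_left {E E' X : Submodule k H} (h : E ≤ E') {n : ℕ} (hX : (br k E')^[n] X = ⊥) :
    (br k E)^[n] X = ⊥ := by
  rw [eq_bot_iff, ← hX]
  exact iter_mono_left k h n

theorem iter_bot_mono {E X X' : Submodule k H} (h : X ≤ X') {n : ℕ} (hX : (br k E)^[n] X' = ⊥) :
    (br k E)^[n] X = ⊥ := by
  rw [eq_bot_iff, ← hX]
  exact iter_mono k h n

/-- the closure under commutators inside a bimodule -/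
theorem cl_le_KXK {K E X : Submodule k H} (h1 : (1 : H) ∈ K) (hKK : K * K ≤ K) (hEK : E ≤ K) (n : ℕ) :
    cl k E X n ≤ K * X * K := by
  refine iSup_le fun j => ?_
  have : ∀ j : ℕ, (br k E)^[j] X ≤ K * X * K := by
    intro j
    induction j with
    | zero =>
      intro x hx
      have := Submodule.mul_mem_mul (Submodule.mul_mem_mul h1 hx) h1
      rwa [one_mul, mul_one] at this
    | succ j ih =>
      rw [Function.iterate_succ_apply', br_le]
      intro a ha x hx
      refine Submodule.sub_mem _ ?_ ?_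
      · have h2 : a * x ∈ K * (K * X * K) := Submodule.mul_mem_mul (hEK ha) (ih hx)
        rw [← mul_assoc, ← mul_assoc] at h2
        exact mul_le_mul' (mul_le_mul' hKK le_rfl) le_rfl h2
      · have h2 : x * a ∈ (K * X * K) * K := Submodule.mul_mem_mul (ih hx) (hEK ha)
        rw [mul_assoc] at h2
        exact mul_le_mul' le_rfl hKK h2
  exact this j.1

/-- iterated commutators with the bigger space of a closure -/
theorem cl_iter_bot' {K E X : Submodule k H} (hEK : E ≤ K) {n : ℕ} (hX : (br k K)^[n] X = ⊥) :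
    (br k K)^[n] (cl k E X n) = ⊥ := by
  refine iter_bot_mono k ?_ (cl_iter_bot k hX)
  exact iSup_mono fun j => iter_mono_left k hEK j.1

end bialg

section hopf
variable (k : Type u) [Field k] {H : Type v} [Ring H] [HopfAlgebra k H]

/-- the base: a commutative Hopf subalgebra `K`, a subbialgebra `T` which meets the coradical in `K`, and a
finite-dimensional subcoalgebra `E` of `K` which controls the commutators with `K` -/
structure Cx (K T E : Submodule k H) : Prop where
  ctx : Ctx k (coradical k H) K T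
  comm : ∀ a ∈ K, ∀ b ∈ K, a * b = b * a
  Efg : E.FG
  Esub : IsSubcoalgebra k E
  E1 : (1 : H) ∈ E
  EK : E ≤ K
  star : ∀ X : Submodule k H, X ≤ T → br k E X ≤ X → ∀ a ∈ K, ∀ x ∈ X, a * x - x * a ∈ br k E X * K
  nil : ∀ x ∈ T, ∃ n : ℕ, (br k K)^[n] (Submodule.span k {x}) = ⊥

/-- levels -/
structure Sys (K T E : Submodule k H) (M X : ℕ → Submodule k H) (F : Submodule k H) (r n : ℕ) : Prop where
  zero : M 0 = K
  mono : Monotone M
  MT : ∀ t, M t ≤ T
  sub : ∀ t, IsSubcoalgebra k (M t)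
  KM : ∀ t, K * M t ≤ M t
  MK : ∀ t, M t * K ≤ M t
  cov : ∀ t, M t ≤ K ⊔ X t * K
  XM : ∀ t, X t ≤ M t
  Xfg : ∀ t, (X t).FG
  Xeps : ∀ t, ∀ x ∈ X t, Coalgebra.counit (R := k) x = 0
  Xbr : ∀ t, br k E (X t) ≤ X t
  Xnil : ∀ t, (br k K)^[n] (X t) = ⊥
  com : ∀ t, ∀ y ∈ M (t + 1), Coalgebra.comul (R := k) y ∈
    tsp k (M (t + 1)) K ⊔ tsp k K (M (t + 1)) ⊔ tsp k (M t) (M t)
  Ffg : F.FG
  Fsub : IsSubcoalgebra k F
  F1 : (1 : H) ∈ F
  FM : F ≤ M r
  XF : ∀ t, X t ≤ F ^ (n + 1)

variable {k}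

theorem Cx.nil_fg {K T E : Submodule k H} (h : Cx k K T E) {X : Submodule k H} (hX : X.FG) (hXT : X ≤ T) :
    ∃ n : ℕ, (br k K)^[n] X = ⊥ := by
  classical
  obtain ⟨S, rfl⟩ := hX
  induction S using Finset.induction_on with
  | empty =>
    refine ⟨0, ?_⟩
    rw [Function.iterate_zero, id_eq, Finset.coe_empty, Submodule.span_empty]
  | insert a S haS ih =>
    rw [Finset.coe_insert, Submodule.span_insert, sup_le_iff, Submodule.span_singleton_le_iff_mem] at hXT
    obtain ⟨n1, hn1⟩ := ih hXT.2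
    obtain ⟨n2, hn2⟩ := h.nil a hXT.1
    refine ⟨max n1 n2, ?_⟩
    rw [Finset.coe_insert, Submodule.span_insert, sup_eq_iSup, iter_iSup, iSup_eq_bot]
    intro b
    cases b
    · exact iter_bot_of_le k (le_max_left n1 n2) hn1
    · exact iter_bot_of_le k (le_max_right n1 n2) hn2

theorem Cx.K_mul {K T E : Submodule k H} (h : Cx k K T E) {X : Submodule k H} (hX : X ≤ T) (hbr : br k E X ≤ X) :
    K * X ≤ X * K := by
  rw [Submodule.mul_le]
  intro a ha x hx
  have h1 : a * x = x * a + (a * x - x * a) := by abel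
  rw [h1]
  exact Submodule.add_mem _ (Submodule.mul_mem_mul hx ha) (mul_le_mul' hbr le_rfl (h.star X hX hbr a ha x hx))

/-- the trivial system -/
theorem Sys.const {K T E : Submodule k H} (h : Cx k K T E) : Sys k K T E (fun _ => K) (fun _ => ⊥) E 0 0 where
  zero := rfl
  mono := fun _ _ _ => le_rfl
  MT := fun _ => h.ctx.KT
  sub := fun _ => h.ctx.hK.sub
  KM := fun _ => h.ctx.hK.mul_le
  MK := fun _ => h.ctx.hK.mul_le
  cov := fun _ => le_sup_left
  XM := fun _ => bot_le
  Xfg := fun _ => Submodule.fg_bot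
  Xeps := fun _ x hx => by rw [Submodule.mem_bot] at hx; rw [hx, map_zero]
  Xbr := fun _ => by rw [br_bot]
  Xnil := fun _ => rfl
  com := fun _ y hy => Submodule.mem_sup_right (h.ctx.hK.sub y hy)
  Ffg := h.Efg
  Fsub := h.Esub
  F1 := h.E1
  FM := h.EK
  XF := fun _ => bot_le

/-- a bigger nilpotency bound -/
theorem Sys.up {K T E : Submodule k H} {M X : ℕ → Submodule k H} {F : Submodule k H} {r n n' : ℕ}
    (h : Sys k K T E M X F r n) (hn : n ≤ n') : Sys k K T E M X F r n' :=
  { h with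
    Xnil := fun t => iter_bot_of_le k hn (h.Xnil t)
    XF := fun t => (h.XF t).trans (pow_le_pow_right' (Submodule.one_le.2 h.F1) (by omega)) }

/-- the new top of a system -/
def top (K : Submodule k H) (M : ℕ → Submodule k H) (r : ℕ) (O : Submodule k H) : Submodule k H :=
  M r ⊔ K * O * K

/-- the new letters -/
noncomputable def topX (E : Submodule k H) (X : ℕ → Submodule k H) (r n : ℕ) (O : Submodule k H) : Submodule k H :=
  X r ⊔ (cl k E O n).map (GKF.aug k)

theorem Sys.KOK {K T E : Submodule k H} {M X : ℕ → Submodule k H} {F : Submodule k H} {r n : ℕ}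
    (_ : Sys k K T E M X F r n) (hcx : Cx k K T E) {O : Submodule k H} (hOT : O ≤ T) (hn : (br k K)^[n] O = ⊥) :
    K * O * K ≤ cl k E O n * K := by
  have h1 : O ≤ cl k E O n := le_cl k E O n
  have h2 : cl k E O n ≤ T := (cl_le_KXK k hcx.ctx.hK.one_mem hcx.ctx.hK.mul_le hcx.EK n).trans
    ((mul_le_mul' ((mul_le_mul' hcx.ctx.KT hOT).trans hcx.ctx.mulT) hcx.ctx.KT).trans hcx.ctx.mulT)
  have h3 : br k E (cl k E O n) ≤ cl k E O n := cl_br k (iter_bot_left k hcx.EK hn)
  refine (mul_le_mul' ((mul_le_mul' le_rfl h1).trans (hcx.K_mul h2 h3)) le_rfl).trans ?_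
  rw [mul_assoc]
  exact mul_le_mul' le_rfl hcx.ctx.hK.mul_le

theorem Sys.top_sub {K T E : Submodule k H} {M X : ℕ → Submodule k H} {F : Submodule k H} {r n : ℕ}
    (h : Sys k K T E M X F r n) (hcx : Cx k K T E) {O : Submodule k H} (hOs : IsSubcoalgebra k O) :
    IsSubcoalgebra k (top K M r O) := by
  refine cs_sup k (h.sub r) ?_
  have hK := hcx.ctx.hK.sub
  rw [sub_iff]
  exact ⟨LS_mul k (LS_mul k (LS_of_sub k hK) (LS_of_sub k hOs)) (LS_of_sub k hK),
    RS_mul k (RS_mul k (RS_of_sub k hK) (RS_of_sub k hOs)) (RS_of_sub k hK)⟩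

theorem Sys.top_K {K T E : Submodule k H} {M X : ℕ → Submodule k H} {F : Submodule k H} {r n : ℕ}
    (h : Sys k K T E M X F r n) (hcx : Cx k K T E) (O : Submodule k H) :
    K * top K M r O ≤ top K M r O ∧ top K M r O * K ≤ top K M r O := by
  constructor
  · rw [top, Submodule.mul_sup]
    refine sup_le_sup (h.KM r) ?_
    rw [← mul_assoc, ← mul_assoc]
    exact mul_le_mul' (mul_le_mul' hcx.ctx.hK.mul_le le_rfl) le_rfl
  · rw [top, Submodule.sup_mul]
    refine sup_le_sup (h.MK r) ?_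
    rw [mul_assoc]
    exact mul_le_mul' le_rfl hcx.ctx.hK.mul_le

theorem Sys.top_T {K T E : Submodule k H} {M X : ℕ → Submodule k H} {F : Submodule k H} {r n : ℕ}
    (h : Sys k K T E M X F r n) (hcx : Cx k K T E) {O : Submodule k H} (hOT : O ≤ T) :
    top K M r O ≤ T :=
  sup_le (h.MT r) ((mul_le_mul' ((mul_le_mul' hcx.ctx.KT hOT).trans hcx.ctx.mulT) hcx.ctx.KT).trans hcx.ctx.mulT)

theorem le_top_O {K T E : Submodule k H} (hcx : Cx k K T E) (M : ℕ → Submodule k H) (r : ℕ) (O : Submodule k H) :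
    O ≤ top K M r O := by
  refine le_trans ?_ (le_sup_right : K * O * K ≤ _)
  intro x hx
  have := Submodule.mul_mem_mul (Submodule.mul_mem_mul hcx.ctx.hK.one_mem hx) hcx.ctx.hK.one_mem
  rwa [one_mul, mul_one] at this

/-- one more level -/
theorem Sys.ext {K T E : Submodule k H} {M X : ℕ → Submodule k H} {F : Submodule k H} {r n : ℕ}
    (h : Sys k K T E M X F r n) (hcx : Cx k K T E) {O : Submodule k H} (hOf : O.FG) (hOs : IsSubcoalgebra k O)
    (hO1 : (1 : H) ∈ O) (hOT : O ≤ T) (hOc : ∀ y ∈ O, Coalgebra.comul (R := k) y ∈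
      tsp k O K ⊔ tsp k K O ⊔ tsp k (M r) (M r)) (hn : (br k K)^[n] O = ⊥) :
    Sys k K T E (GKV.ext M (top K M r O) r) (GKV.ext X (topX E X r n O) r) (F ⊔ E ⊔ O) (r + 1) n := by
  have hK := hcx.ctx.hK
  have hKM : K ≤ M r := h.zero ▸ h.mono (Nat.zero_le r)
  set N : Submodule k H := top K M r O with hN
  set Z : Submodule k H := cl k E O n with hZ
  have hZKOK : Z ≤ K * O * K := cl_le_KXK k hK.one_mem hK.mul_le hcx.EK n
  have hZN : Z ≤ N := hZKOK.trans le_sup_right
  have h1Z : (1 : H) ∈ Z := le_cl k E O n hO1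
  have hZbr : br k E Z ≤ Z := cl_br k (iter_bot_left k hcx.EK hn)
  have hZ'Z : Z.map (GKF.aug k) ≤ Z := by
    rintro _ ⟨x, hx, rfl⟩
    rw [GKF.aug_apply]
    exact Z.sub_mem hx (Z.smul_mem _ h1Z)
  have hZZ' : Z ≤ Submodule.span k {1} ⊔ Z.map (GKF.aug k) := by
    intro x hx
    have : x = Coalgebra.counit (R := k) x • (1 : H) + GKF.aug k x := by rw [GKF.aug_apply]; abel
    rw [this]
    exact Submodule.add_mem_sup (Submodule.smul_mem _ _ (Submodule.mem_span_singleton_self 1))
      (Submodule.mem_map_of_mem hx)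
  have hZ'br : br k E (Z.map (GKF.aug k)) ≤ Z.map (GKF.aug k) := by
    rw [br_le]
    rintro a ha _ ⟨x, hx, rfl⟩
    refine ⟨a * x - x * a, hZbr (br_mem k ha hx), ?_⟩
    rw [GKF.aug_apply, GKF.aug_apply, map_sub, Bialgebra.counit_mul, Bialgebra.counit_mul, mul_comm, sub_self,
      zero_smul, sub_zero, mul_sub, _root_.sub_mul, mul_smul_comm, smul_mul_assoc, mul_one, one_mul]
    abel
  have hZf : Z.FG := cl_fg k hcx.Efg hOf n
  have h1F' : (1 : Submodule k H) ≤ F ⊔ E ⊔ O := Submodule.one_le.2 (Submodule.mem_sup_right hO1)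
  refine
    { zero := by rw [ext_of_le (Nat.zero_le r)]; exact h.zero
      mono := ?_
      MT := ext_cases (fun Y => Y ≤ T) h.MT (h.top_T hcx hOT)
      sub := ext_cases (fun Y => IsSubcoalgebra k Y) h.sub (h.top_sub hcx hOs)
      KM := ext_cases (fun Y => K * Y ≤ Y) h.KM (h.top_K hcx O).1
      MK := ext_cases (fun Y => Y * K ≤ Y) h.MK (h.top_K hcx O).2
      cov := ?_
      XM := ?_
      Xfg := ext_cases (fun Y => Y.FG) h.Xfg ((h.Xfg r).sup (hZf.map _))
      Xeps := ?_
      Xbr := ?_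
      Xnil := ?_
      com := ?_
      Ffg := (h.Ffg.sup hcx.Efg).sup hOf
      Fsub := cs_sup k (cs_sup k h.Fsub hcx.Esub) hOs
      F1 := Submodule.mem_sup_right hO1
      FM := ?_
      XF := ?_ }
  · intro a b hab
    rcases Nat.lt_or_ge r b with hb | hb
    · rw [ext_of_lt hb]
      rcases Nat.lt_or_ge r a with ha | ha
      · rw [ext_of_lt ha]
      · rw [ext_of_le ha]
        exact (h.mono ha).trans le_sup_left
    · rw [ext_of_le hb, ext_of_le (hab.trans hb)]
      exact h.mono hab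
  · intro t
    rcases Nat.lt_or_ge r t with ht | ht
    · rw [ext_of_lt ht, ext_of_lt ht]
      refine sup_le ((h.cov r).trans (sup_le_sup le_rfl (mul_le_mul' le_sup_left le_rfl))) ?_
      refine (h.KOK hcx hOT hn).trans ((mul_le_mul' hZZ' le_rfl).trans ?_)
      rw [Submodule.sup_mul, ← Submodule.one_eq_span, one_mul]
      exact sup_le_sup le_rfl (mul_le_mul' le_sup_right le_rfl)
    · rw [ext_of_le ht, ext_of_le ht]
      exact h.cov t
  · intro t
    rcases Nat.lt_or_ge r t with ht | ht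
    · rw [ext_of_lt ht, ext_of_lt ht]
      exact sup_le ((h.XM r).trans le_sup_left) (hZ'Z.trans hZN)
    · rw [ext_of_le ht, ext_of_le ht]
      exact h.XM t
  · refine ext_cases (fun Y => ∀ x ∈ Y, Coalgebra.counit (R := k) x = 0) h.Xeps ?_
    intro x hx
    obtain ⟨y, hy, _, ⟨z, _, rfl⟩, rfl⟩ := Submodule.mem_sup.1 hx
    rw [map_add, h.Xeps r y hy, GKF.counit_aug k z, add_zero]
  · refine ext_cases (fun Y => br k E Y ≤ Y) h.Xbr ?_
    rw [topX, br_sup]
    exact sup_le_sup (h.Xbr r) hZ'br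
  · refine ext_cases (fun Y => (br k K)^[n] Y = ⊥) h.Xnil ?_
    rw [topX, sup_eq_iSup, iter_iSup, iSup_eq_bot]
    intro b
    cases b
    · exact iter_bot_mono k hZ'Z (cl_iter_bot' k hcx.EK hn)
    · exact h.Xnil r
  · intro t y hy
    rcases Nat.lt_trichotomy t r with ht | rfl | ht
    · rw [ext_of_le (by omega : t + 1 ≤ r)] at hy ⊢
      rw [ext_of_le ht.le]
      exact h.com t y hy
    · rw [ext_succ] at hy ⊢
      rw [ext_of_le le_rfl]
      have h1 : N ≤ (tsp k N K ⊔ tsp k K N ⊔ tsp k (M t) (M t)).comap (Coalgebra.comul (R := k)) := by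
        refine sup_le ?_ ?_
        · intro x hx
          exact Submodule.mem_sup_right (h.sub t x hx)
        · intro x hx
          have h2 := comul_sandwich k hK.sub hOc x hx
          have h3 : K * K * K ≤ K := (mul_le_mul' hK.mul_le le_rfl).trans hK.mul_le
          have h4 : K * M t * K ≤ M t := (mul_le_mul' (h.KM t) le_rfl).trans (h.MK t)
          exact (sup_le_sup (sup_le_sup (tsp_mono k le_sup_right h3) (tsp_mono k h3 le_sup_right))
            (tsp_mono k h4 h4)) h2
      exact h1 hy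
    · rw [ext_of_lt (by omega : r < t + 1)] at hy ⊢
      rw [ext_of_lt ht]
      exact Submodule.mem_sup_right (h.top_sub hcx hOs y hy)
  · rw [ext_succ]
    exact sup_le (sup_le (h.FM.trans le_sup_left) ((hcx.EK.trans hKM).trans le_sup_left)) (le_top_O hcx M r O)
  · intro t
    rcases Nat.lt_or_ge r t with ht | ht
    · rw [ext_of_lt ht]
      refine sup_le ((h.XF r).trans (pow_le_pow_left' (le_sup_left.trans le_sup_left) _)) ?_
      refine hZ'Z.trans (iSup_le fun j => ?_)
      have hit : ∀ j : ℕ, (br k E)^[j] O ≤ (F ⊔ E ⊔ O) ^ (j + 1) := by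
        intro j
        induction j with
        | zero => rw [zero_add, pow_one]; exact le_sup_right
        | succ j ih =>
          rw [Function.iterate_succ_apply', br_le]
          intro a ha x hx
          have ha' : a ∈ F ⊔ E ⊔ O := Submodule.mem_sup_left (Submodule.mem_sup_right ha)
          refine Submodule.sub_mem _ ?_ ?_
          · rw [pow_succ']; exact Submodule.mul_mem_mul ha' (ih hx)
          · rw [pow_succ]; exact Submodule.mul_mem_mul (ih hx) ha'
      exact (hit j.1).trans (pow_le_pow_right' h1F' (by omega))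
    · rw [ext_of_le ht]
      exact (h.XF t).trans (pow_le_pow_left' (le_sup_left.trans le_sup_left) _)

end hopf

end Pool.Agent.GKW
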