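import Pool.Agent.Lib_helper2.GKW.W3

/-!
# Letters of a system
-/

set_option autoImplicit false

universe u v

namespace Pool.Agent.GKW

open TensorProduct Pool.Agent.GK Pool.Agent.GKP Pool.Agent.GKU Pool.Agent.GKV

section mod
open Pool.Agent.GKF
variable (k : Type u) [Field k] {H : Type v} [Ring H] [Bialgebra k H]

theorem letters_of_lev2 {K C : Submodule k H} {n : ℕ} {M : ℕ → Submodule k H} {Y : ℕ → ℕ → Submodule k H} {r : ℕ}
    (hL : Lev k K C n M Y r) (hK1 : (1 : H) ∈ K) (hKK : K * K ≤ K) (hKs : IsSubcoalgebra k K) :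
    ∃ (m : ℕ) (x : Fin m → H) (w : Fin m → ℤ), LetHyp k K x w ∧ (∀ j, w j ≤ (((n + 1) * 3 ^ (r + 1) : ℕ) : ℤ)) ∧
      (∀ j, x j ∈ C ^ (n + 1)) ∧ M r ≤ Em k K x w (((n + 1) * 3 ^ (r + 1) : ℕ) : ℤ) := by
  obtain ⟨m, x, lv, hlv, hsp⟩ := exists_letters k (r * (n + 1) + n) (fun t => Y (t / (n + 1)) (t % (n + 1)))
    (fun t => hL.fg _ _)
  set w : Fin m → ℤ := fun l => (n + 1) * 3 ^ (lv l / (n + 1) + 1) - ((lv l % (n + 1) : ℕ) : ℤ) with hw
  have hn' : 0 < n + 1 := Nat.succ_pos n
  have hmod : ∀ t : ℕ, t % (n + 1) ≤ n := fun t => Nat.lt_succ_iff.1 (Nat.mod_lt t hn')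
  -- the levels
  have hY : ∀ i ≤ r, ∀ j ≤ n, Y i j ≤ Es k x w ((n + 1) * 3 ^ (i + 1) - j) := by
    intro i hi j hj
    have hdiv : (i * (n + 1) + j) / (n + 1) = i := by
      rw [Nat.mul_comm, Nat.mul_add_div hn', Nat.div_eq_of_lt (by omega), add_zero]
    have hmd : (i * (n + 1) + j) % (n + 1) = j := by
      rw [Nat.mul_comm, Nat.mul_add_mod, Nat.mod_eq_of_lt (by omega)]
    have h1 := hsp (i * (n + 1) + j) (by nlinarith)
    simp only [hdiv, hmd] at h1
    refine h1.trans ?_
    rw [Submodule.span_le]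
    rintro _ ⟨l, hl, rfl⟩
    have h2 : w l = (n + 1) * 3 ^ (i + 1) - j := by
      rw [hw]
      simp only [hl, hdiv, hmd]
    rw [← h2]
    exact Es_x k x w l
  have hKE : K ≤ Em k K x w 0 := by
    intro a ha
    have := Submodule.mul_mem_mul (Es_one k x w) ha
    rwa [one_mul] at this
  have hKpN : Kp k K ≤ Nm k K x w 0 := by
    intro a ha
    refine Submodule.mem_sup_right ?_
    have := Submodule.mul_mem_mul (Es_one k x w) ha
    rwa [one_mul] at this
  have hWt0 : ∀ i, 0 ≤ Wt n i := by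
    intro i
    unfold Wt
    split_ifs
    · exact le_rfl
    · positivity
  have hM : ∀ i ≤ r + 1, M i ≤ Em k K x w (Wt n i) := by
    intro i hi
    rcases i with _ | i
    · rw [Wt_zero]
      exact hL.M0.trans hKE
    · rw [Wt_succ]
      refine (hL.Ms i).trans (sup_le ?_ ?_)
      · exact hKE.trans (Em_mono k K x w (by positivity))
      · have := hY i (by omega) 0 (Nat.zero_le n)
        rw [Nat.cast_zero, sub_zero] at this
        exact mul_le_mul' this le_rfl
  have hlvr : ∀ l, lv l / (n + 1) ≤ r := by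
    intro l
    have h1 := (hlv l).1
    have h2 : lv l < (r + 1) * (n + 1) := by nlinarith
    exact Nat.lt_succ_iff.1 ((Nat.div_lt_iff_lt_mul hn').2 h2)
  refine ⟨m, x, w, ⟨hK1, hKK, hKs, ?_, ?_, ?_, ?_⟩, ?_, ?_, ?_⟩
  · intro l
    have h1 : ((lv l % (n + 1) : ℕ) : ℤ) ≤ n := by exact_mod_cast hmod (lv l)
    have h2 : (1 : ℤ) ≤ 3 ^ (lv l / (n + 1) + 1) := one_le_pow₀ (by norm_num)
    have h3 : (0 : ℤ) ≤ n := Int.natCast_nonneg n
    show 1 ≤ (n + 1) * 3 ^ (lv l / (n + 1) + 1) - ((lv l % (n + 1) : ℕ) : ℤ)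
    nlinarith
  · intro l
    exact hL.eps _ _ _ (hlv l).2
  · intro l a ha
    set i := lv l / (n + 1) with hi
    set j := lv l % (n + 1) with hj
    have hxl : x l ∈ Y i j := (hlv l).2
    have h1 : a * x l = (a * x l - x l * a) + x l * a := by abel
    rw [h1]
    have hwl : w l = (n + 1) * 3 ^ (i + 1) - (j : ℤ) := rfl
    rw [Nm, add_comm]
    rw [add_comm]
    refine Submodule.add_mem_sup ?_ (Submodule.mul_mem_mul (Es_x k x w l) ha)
    have h2 := hL.com i j a ha.1 (x l) hxl
    rcases Nat.lt_or_ge j n with hjn | hjn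
    · have h3 := hY i (hlvr l) (j + 1) hjn
      have h4 : w l - 1 = (n + 1) * 3 ^ (i + 1) - ((j + 1 : ℕ) : ℤ) := by
        rw [hwl]; push_cast; ring
      rw [h4]
      exact mul_le_mul' h3 le_rfl h2
    · have hjn' : j = n := le_antisymm (hmod _) hjn
      rw [hjn', hL.bot i, Submodule.mem_bot] at hxl
      rw [hxl, mul_zero, zero_mul, sub_zero]
      exact Submodule.zero_mem _
  · intro l
    set i := lv l / (n + 1) with hi
    set j := lv l % (n + 1) with hj
    have hxl : x l ∈ Y i j := (hlv l).2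
    have hwl : w l = (n + 1) * 3 ^ (i + 1) - (j : ℤ) := rfl
    have hYw : Y i j * K ≤ Em k K x w (w l) := by
      rw [hwl]
      exact mul_le_mul' (hY i (hlvr l) j (hmod _)) le_rfl
    have hxε : Coalgebra.counit (R := k) (x l) = 0 := hL.eps i j _ hxl
    rw [← aug_comul k hxε]
    have haugY : ∀ y ∈ Y i j * K, aug k y ∈ Y i j * K := by
      intro y hy
      have : Coalgebra.counit (R := k) y = 0 := by
        induction hy using Submodule.mul_induction_on' with
        | mem_mul_mem z hz b hb => rw [Bialgebra.counit_mul, hL.eps i j z hz, zero_mul]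
        | add y _ y' _ ih ih' => rw [map_add, ih, ih', add_zero]
      rw [aug_eq k this]
      exact hy
    have haugK : ∀ b ∈ K, aug k b ∈ Kp k K := by
      intro b hb
      refine ⟨?_, counit_aug k b⟩
      rw [aug_apply]
      exact K.sub_mem hb (K.smul_mem _ hK1)
    have haugM : ∀ b ∈ M i, aug k b ∈ M i := by
      intro b hb
      rw [aug_apply]
      exact (M i).sub_mem hb ((M i).smul_mem _ (hL.MK i hK1))
    obtain ⟨t, ht, t3, ht3, h2⟩ := Submodule.mem_sup.1 (hL.comul i j (x l) hxl)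
    obtain ⟨t1, ht1, t2, ht2, h3⟩ := Submodule.mem_sup.1 ht
    rw [← h2, ← h3, map_add, map_add]
    refine Submodule.add_mem _ (Submodule.add_mem _ ?_ ?_) ?_
    · refine Submodule.mem_sup_right ?_
      exact tsp_le_TZ2 k hYw hKpN (add_zero _) (map_tsp k haugY haugK ht1)
    · refine Submodule.mem_sup_left ?_
      exact tsp_le_TZ2 k hKpN hYw (zero_add _) (map_tsp k haugK haugY ht2)
    · have h4 := tsp_le_TZ k (Em_mono k K x w) (hM i (by have := hlvr l; omega)) (hM i (by have := hlvr l; omega))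
        (n := w l - 1) (by
          have := Wt_double n i j (hmod _)
          rw [hwl]
          linarith) (map_tsp k haugM haugM ht3)
      refine Submodule.mem_sup_left ?_
      exact TZ_mono k (fun s => Em_le_Nm k K x w s) (fun _ => le_rfl) _ (TZ_shift k (w l) h4)
  · intro l
    show (n + 1) * 3 ^ (lv l / (n + 1) + 1) - ((lv l % (n + 1) : ℕ) : ℤ) ≤ (((n + 1) * 3 ^ (r + 1) : ℕ) : ℤ)
    push_cast
    have h1 : (3 : ℤ) ^ (lv l / (n + 1) + 1) ≤ 3 ^ (r + 1) :=
      pow_le_pow_right₀ (by norm_num) (by have := hlvr l; omega)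
    have h2 : (0 : ℤ) ≤ (lv l : ℤ) % (n + 1) := Int.emod_nonneg _ (by positivity)
    have h3 : (0 : ℤ) ≤ n := Int.natCast_nonneg n
    nlinarith
  · intro l
    exact hL.pow _ _ (hlv l).2
  · refine (hM r (by omega)).trans (Em_mono k K x w ?_)
    have h3 : (0 : ℤ) ≤ n := Int.natCast_nonneg n
    rcases Nat.eq_zero_or_pos r with h0 | h0
    · rw [h0, Wt_zero]
      positivity
    · have : Wt n r = (n + 1) * 3 ^ r := by simp [Wt]; omega
      rw [this]
      push_cast
      refine mul_le_mul_of_nonneg_left ?_ (by linarith)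
      exact pow_le_pow_right₀ (by norm_num) (by omega)

end mod

section hopf
variable {k : Type u} [Field k] {H : Type v} [Ring H] [HopfAlgebra k H]

/-- the levels of a system -/
theorem Sys.lev {K T E : Submodule k H} {M X : ℕ → Submodule k H} {F : Submodule k H} {r n : ℕ}
    (h : Sys k K T E M X F r n) (hcx : Cx k K T E) :
    Lev k K F n M (fun i j => (br k E)^[j] (X (i + 1))) r := by
  have hK := hcx.ctx.hK
  have hKM : ∀ t, K ≤ M t := fun t => h.zero ▸ h.mono (Nat.zero_le t)
  set Y : ℕ → ℕ → Submodule k H := fun i j => (br k E)^[j] (X (i + 1)) with hY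
  have hYs : ∀ i j, Y i (j + 1) = br k E (Y i j) := fun i j => Function.iterate_succ_apply' _ _ _
  have hYbr : ∀ i j, br k E (Y i j) ≤ Y i j := by
    intro i j
    induction j with
    | zero => exact h.Xbr (i + 1)
    | succ j ih => rw [hYs]; exact br_mono k le_rfl ih
  have hYX : ∀ i j, Y i j ≤ X (i + 1) := by
    intro i j
    induction j with
    | zero => exact le_rfl
    | succ j ih => rw [hYs]; exact (hYbr i j).trans ih
  have hXT : ∀ i, X i ≤ T := fun i => (h.XM i).trans (h.MT i)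
  refine ⟨?_, ?_, hKM, ?_, h.FM, ?_, ?_, ?_, ?_, ?_⟩
  · intro i j
    exact iter_fg k hcx.Efg (h.Xfg (i + 1)) j
  · exact h.zero.le
  · intro i
    exact h.cov (i + 1)
  · intro i j y hy
    exact h.Xeps (i + 1) y (hYX i j hy)
  · intro i j a ha y hy
    rw [hYs]
    exact hcx.star _ ((hYX i j).trans (hXT _)) (hYbr i j) a ha y hy
  · intro i
    exact iter_bot_left k hcx.EK (h.Xnil (i + 1))
  · intro i j
    exact (hYX i j).trans (h.XF (i + 1))
  · intro i j
    induction j with
    | zero =>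
      intro y hy
      have hyM : y ∈ M (i + 1) := h.XM (i + 1) hy
      have h2 := h.com i y hyM
      have hMY : M (i + 1) ≤ K ⊔ Y i 0 * K := h.cov (i + 1)
      have hKKM : tsp k K K ≤ tsp k (M i) (M i) := tsp_mono k (hKM i) (hKM i)
      have h4 : tsp k (M (i + 1)) K ⊔ tsp k K (M (i + 1)) ⊔ tsp k (M i) (M i) ≤
          tsp k (Y i 0 * K) K ⊔ tsp k K (Y i 0 * K) ⊔ tsp k (M i) (M i) := by
        refine sup_le (sup_le ?_ ?_) le_sup_right
        · refine (tsp_mono k hMY le_rfl).trans ?_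
          rw [tsp_le]
          intro a ha b hb
          obtain ⟨c, hc, d, hd, rfl⟩ := Submodule.mem_sup.1 ha
          rw [TensorProduct.add_tmul]
          exact Submodule.add_mem _ (Submodule.mem_sup_right (hKKM (tmul_mem_tsp k hc hb)))
            (Submodule.mem_sup_left (Submodule.mem_sup_left (tmul_mem_tsp k hd hb)))
        · refine (tsp_mono k le_rfl hMY).trans ?_
          rw [tsp_le]
          intro a ha b hb
          obtain ⟨c, hc, d, hd, rfl⟩ := Submodule.mem_sup.1 hb
          rw [TensorProduct.tmul_add]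
          exact Submodule.add_mem _ (Submodule.mem_sup_right (hKKM (tmul_mem_tsp k ha hc)))
            (Submodule.mem_sup_left (Submodule.mem_sup_right (tmul_mem_tsp k ha hd)))
      exact h4 h2
    | succ j ih =>
      intro y hy
      rw [hYs] at hy ⊢
      exact comul_br k hcx.Esub hcx.EK hK.mul_le hcx.comm (h.KM i) (h.MK i) ih y hy

/-- the letters of a system -/
theorem Sys.letters {K T E : Submodule k H} {M X : ℕ → Submodule k H} {F : Submodule k H} {r n : ℕ}
    (h : Sys k K T E M X F r n) (hcx : Cx k K T E) :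
    ∃ (m : ℕ) (x : Fin m → H) (w : Fin m → ℤ), LetHyp k K x w ∧ (∀ j, w j ≤ (((n + 1) * 3 ^ (r + 1) : ℕ) : ℤ)) ∧
      (∀ j, x j ∈ F ^ (n + 1)) ∧ M r ≤ Em k K x w (((n + 1) * 3 ^ (r + 1) : ℕ) : ℤ) :=
  letters_of_lev2 k (h.lev hcx) hcx.ctx.hK.one_mem hcx.ctx.hK.mul_le hcx.ctx.hK.sub

end hopf

end Pool.Agent.GKW
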