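import Pool.Agent.Lib_helper2.GKW.W4

/-!
# Growth along the orbits, modulo a system
-/

set_option autoImplicit false

universe u v

namespace Pool.Agent.GKW

open TensorProduct Pool.Agent.GK Pool.Agent.GKP Pool.Agent.GKU Pool.Agent.GKV Pool.Agent.GKC

section hopf
variable {k : Type u} [Field k] {H : Type v} [Ring H] [HopfAlgebra k H]

theorem ob_map_antipode (S : Finset (GroupLike k H)) (X : Submodule k H) (i : ℕ) :
    (ob k S X i).map (HopfAlgebra.antipode k) ≤ ob k S (X.map (HopfAlgebra.antipode k)) i := by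
  induction i with
  | zero => exact le_rfl
  | succ i ih =>
    rw [Submodule.map_le_iff_le_comap]
    conv_lhs => unfold ob
    refine iSup₂_le fun s hs => ?_
    rw [Submodule.map_le_iff_le_comap]
    intro y hy
    rw [Submodule.mem_comap, Submodule.mem_comap, cj_antipode]
    exact ob_map k S _ i hs (Submodule.mem_map_of_mem (ih (Submodule.mem_map_of_mem hy)))

/-- one step -/
theorem step2 {S : Finset (GroupLike k H)} (hS : Sym k S) {K T E : Submodule k H} (hcx : Cx k K T E)
    {M X : ℕ → Submodule k H} {F : Submodule k H} {r n : ℕ} (sys : Sys k K T E M X F r n)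
    (hKS : GKC.Stb k (S : Set (GroupLike k H)) K) (hTS : GKC.Stb k (S : Set (GroupLike k H)) T)
    (hMS : GKC.Stb k (S : Set (GroupLike k H)) (M r)) {D : Submodule k H} (hDf : D.FG) (hDs : IsSubcoalgebra k D)
    (hD1 : (1 : H) ∈ D) (hDT : D ≤ T) (hDc : ∀ y ∈ D, Coalgebra.comul (R := k) y ∈
      tsp k D K ⊔ tsp k K D ⊔ tsp k (M r) (M r)) (hDn : (br k K)^[n] D = ⊥) :
    GKdim k H = ⊤ ∨ ∃ j, ob k S D (j + 1) ≤ top K M r (ob k S D j) := by
  classical
  by_cases hst : ∃ j, ob k S D (j + 1) ≤ top K M r (ob k S D j)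
  · exact Or.inr hst
  left
  push Not at hst
  set N : ℕ → Submodule k H := fun j => top K M r (ob k S D j) with hN
  have hOT : ∀ j, ob k S D j ≤ T := fun j => ob_le hDT hTS j
  have hOn : ∀ j, (br k K)^[n] (ob k S D j) = ⊥ := fun j => ob_nil (map_inv_le hS hKS) hDn j
  have hO1 : ∀ j, (1 : H) ∈ ob k S D j := fun j => ob_mono k S D hS.1 (Nat.zero_le j) hD1
  have hlt : ∀ j, N j < N (j + 1) := by
    intro j
    refine lt_of_le_of_ne (sup_le_sup le_rfl (mul_le_mul' (mul_le_mul' le_rfl (ob_le_succ k S D hS.1 j)) le_rfl))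
      fun heq => ?_
    refine hst j ?_
    show _ ≤ N j
    rw [heq]
    exact le_top_O hcx M r _
  set G : Submodule k H := F ⊔ E ⊔ D with hG
  set V : Submodule k H := G ⊔ G.map (HopfAlgebra.antipode k) ⊔ kS k (S : Set (GroupLike k H)) with hV
  have hGf : G.FG := (sys.Ffg.sup hcx.Efg).sup hDf
  have h1V : (1 : Submodule k H) ≤ V :=
    (one_le_kS k (Finset.mem_coe.2 hS.1)).trans le_sup_right
  have hVf : V.FG := (hGf.sup (hGf.map _)).sup (kS_fg k S)
  have hSV : ∀ s ∈ S, s.val ∈ V ∧ (s⁻¹).val ∈ V := fun s hs =>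
    ⟨Submodule.mem_sup_right (Submodule.subset_span ⟨s, hs, rfl⟩),
      Submodule.mem_sup_right (Submodule.subset_span ⟨s⁻¹, hS.2 s hs, rfl⟩)⟩
  have hGV : G ≤ V := le_sup_left.trans le_sup_left
  have hGV' : G.map (HopfAlgebra.antipode k) ≤ V := le_sup_right.trans le_sup_left
  have hVpow : ∀ j, V ≤ V ^ (2 * j + 1) := by
    intro j
    have h2 : V ^ 1 ≤ V ^ (2 * j + 1) := pow_le_pow_right' h1V (by omega)
    rwa [pow_one] at h2
  rw [← top_le_iff]
  refine le_trans ?_ (le_GKdim k h1V hVf)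
  set W : ℕ := (n + 1) * 3 ^ (r + 1 + 1) with hW
  rw [asm_L_top_pow k (V := V) (W := 5 * (2 * (n + 1) * (W + 2))) (q := W + 1)
    (Nat.mul_pos (by omega) (Nat.mul_pos (by omega) (by omega))) (by omega)]
  intro p hp
  set j : ℕ := p ^ W + 1 with hj
  set O : Submodule k H := ob k S D j with hO
  have hOf : O.FG := ob_fg k S D hDf j
  have sys' := sys.ext hcx hOf (ob_sub hDs j) (hO1 j) (hOT j) (ob_com hKS hMS hDc j) (hOn j)
  obtain ⟨m, x, w, hlet, hwW, hx, hMW⟩ := sys'.letters hcx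
  rw [ext_succ] at hMW
  set C : Submodule k H := F ⊔ E ⊔ O with hC
  have hd : Cnt k K T C (V ^ (2 * j + 1)) x w (n + 1) :=
    { ctx := hcx.ctx
      let' := hlet
      fg := sys'.Ffg
      sub := sys'.Fsub
      one := sys'.F1
      CT := sys'.FM.trans (sys'.MT _)
      fg' := hVf.pow _
      CC' := by
        refine sup_le ?_ (ob_pow hSV (le_sup_right.trans hGV) j)
        exact (le_sup_left.trans hGV).trans (hVpow j)
      SC' := by
        refine (Submodule.map_mono (inf_le_left : C ⊓ coradical k H ≤ C)).trans ?_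
        rw [hC, Submodule.map_sup]
        refine sup_le ?_ ?_
        · exact ((Submodule.map_mono (le_sup_left : F ⊔ E ≤ G)).trans hGV').trans (hVpow j)
        · exact (ob_map_antipode S D j).trans
            (ob_pow hSV ((Submodule.map_mono (le_sup_right : D ≤ G)).trans hGV') j)
      mem := hx }
  obtain ⟨B, _, _, q, _, hqc, hq⟩ := GKF.exists_quot k (isFW_mod k hlet)
  set cB : Fin m → B := fun j => q (FreeAlgebra.ι k j) with hcB
  have hfinB : ∀ n, Module.Finite k ↥(GKF.Dg k cB ^ n) := fun n => Module.Finite.iff_fg.2 ((GKF.Dg_fg k cB).pow n)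
  have hfinE : ∀ s, Module.Finite k ↥(GKF.Es k cB w s) := fun s => Module.Finite.iff_fg.2 (Es_fg' k cB hlet.w1 s)
  obtain ⟨R, e, hR, -, -, hPe⟩ := fam_cor hd q hq W
  have h0 : j ≤ R := by
    refine chain_rank (N := N) hcx.ctx hPe (Em_sub k hlet _) (Em_le_T hd _) (fun t => sys.top_sub hcx (ob_sub hDs t))
      (fun t => (sys.top_K hcx _).2) hlt (fun t => ?_) hMW
    refine ⟨cl k E (ob k S D (t + 1)) n, cl_fg k hcx.Efg (ob_fg k S D hDf _) n, ?_, ?_⟩
    · exact (cl_le_KXK k hcx.ctx.hK.one_mem hcx.ctx.hK.mul_le hcx.EK n).trans le_sup_right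
    · exact sup_le (le_sup_left.trans le_sup_left) ((sys.KOK hcx (hOT _) (hOn _)).trans le_sup_right)
  have h2 : Module.finrank k ↥(GKF.Es k cB w (W : ℕ)) ≤ Module.finrank k ↥(GKF.Dg k cB) ^ W :=
    (Submodule.finrank_mono (Es_le_Dg k cB hlet.w1 W)).trans (finrank_pow_le' k (GKF.Dg_fg k cB) W)
  have h3 : p + 1 ≤ Module.finrank k ↥(GKF.Dg k cB) := by
    by_contra hcon
    have h4 : Module.finrank k ↥(GKF.Dg k cB) ≤ p := by omega
    have h5 : R ≤ p ^ W := by
      rw [hR]
      exact h2.trans (Nat.pow_le_pow_left h4 W)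
    omega
  have h4 := prim_many k cB hqc p h3
  have h5 : Module.finrank k ↥(GKF.Dg k cB ^ p) ≤ Module.finrank k ↥(GKF.Es k cB w (((W + 1) * p : ℕ) : ℤ)) := by
    refine Submodule.finrank_mono ((GKF.pow_le_Es k cB w hwW p).trans (GKF.Es_mono k cB w ?_))
    push_cast
    nlinarith [Int.natCast_nonneg p]
  have h1fg : (1 : Submodule k H).FG := by
    rw [Submodule.one_eq_span]
    exact Submodule.fg_span_singleton 1
  have h6 := count_low hd q hq ((W + 1) * p) h1fg (Submodule.one_le.2 hcx.ctx.hA.one_mem)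
  have h7 : Module.finrank k ↥(1 : Submodule k H) = 1 := by
    rw [Submodule.one_eq_span]
    have hnt : Nontrivial H := Bialgebra.nontrivial (R := k)
    exact finrank_span_singleton one_ne_zero
  rw [h7, mul_one, mul_one] at h6
  refine ((h4.trans h5).trans h6).trans ?_
  have hfin : Module.Finite k ↥(V ^ (5 * (2 * (n + 1) * (W + 2)) * p ^ (W + 1))) :=
    Module.Finite.iff_fg.2 (hVf.pow _)
  refine Submodule.finrank_mono ?_
  rw [← pow_mul]
  refine pow_le_pow_right' h1V ?_
  have hpW : 1 ≤ p ^ W := Nat.one_le_pow _ _ hp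
  calc (2 * j + 1) * (2 * (n + 1) * ((W + 1) * p + 1)) ≤
        (5 * p ^ W) * (2 * (n + 1) * ((W + 2) * p)) := by
        refine Nat.mul_le_mul ?_ (Nat.mul_le_mul_left _ ?_)
        · omega
        · nlinarith
    _ = 5 * (2 * (n + 1) * (W + 2)) * p ^ (W + 1) := by ring

end hopf

end Pool.Agent.GKW
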