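import Pool.Agent.Lib_helper2.GKW.W5

/-!
# Stable systems and the growth of a system
-/

set_option autoImplicit false

universe u v

namespace Pool.Agent.GKW

open TensorProduct Pool.Agent.GK Pool.Agent.GKP Pool.Agent.GKU Pool.Agent.GKV Pool.Agent.GKC

section hopf
variable {k : Type u} [Field k] {H : Type v} [Ring H] [HopfAlgebra k H]

theorem map_cj_mul (s : GroupLike k H) (A B : Submodule k H) :
    (A * B).map (cj k s) ≤ A.map (cj k s) * B.map (cj k s) := by
  rw [Submodule.map_le_iff_le_comap, Submodule.mul_le]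
  intro a ha b hb
  rw [Submodule.mem_comap, cj_mul]
  exact Submodule.mul_mem_mul (Submodule.mem_map_of_mem ha) (Submodule.mem_map_of_mem hb)

/-- finite dimension: every finite-dimensional subspace of `T` lies in a stable system -/
theorem sys_exists {S : Finset (GroupLike k H)} (hS : Sym k S) {K T E : Submodule k H} (hcx : Cx k K T E)
    (hKS : GKC.Stb k (S : Set (GroupLike k H)) K) (hTS : GKC.Stb k (S : Set (GroupLike k H)) T)
    (htop : GKdim k H ≠ ⊤) {V : Submodule k H} (hV : V.FG) (hVT : V ≤ T) :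
    ∃ (M X : ℕ → Submodule k H) (F : Submodule k H) (r n : ℕ), Sys k K T E M X F r n ∧
      (∀ t, GKC.Stb k (S : Set (GroupLike k H)) (M t)) ∧ V ≤ M r := by
  classical
  have hA := hcx.ctx.hA
  have h1T : (1 : H) ∈ T := hcx.ctx.KT hcx.ctx.hK.one_mem
  obtain ⟨C1, hVC1, h1C1, hC1f, hC1s⟩ := cs_fund k hV
  set C0 : Submodule k H := C1 ⊓ T with hC0
  have hC0f : C0.FG := fg_of_le k hC1f inf_le_left
  have hC0T : C0 ≤ T := inf_le_right
  obtain ⟨r, D, hD0, hDr, hmono, hDC, hDsub, hDc⟩ := chain_of k (coradical k H) C0 (GKP.coradical_sub k) le_rfl hC0f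
    (cs_inf k hC1s hcx.ctx.subT)
  have hDf : ∀ i, (D i).FG := fun i => fg_of_le k hC0f (hDC i)
  have hD0K : D 0 ≤ K := by
    rw [hD0]
    exact (inf_le_inf hC0T le_rfl).trans hcx.ctx.inf
  have h1D : ∀ i, (1 : H) ∈ D i := fun i => hmono (Nat.zero_le i) (by
    rw [hD0]
    exact ⟨⟨h1C1, h1T⟩, hA.one_mem⟩)
  have key : ∀ i : ℕ, ∃ (M X : ℕ → Submodule k H) (F : Submodule k H) (n : ℕ), Sys k K T E M X F i n ∧
      (∀ t, GKC.Stb k (S : Set (GroupLike k H)) (M t)) ∧ D i ≤ M i := by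
    intro i
    induction i with
    | zero => exact ⟨_, _, _, _, Sys.const hcx, fun _ => hKS, hD0K⟩
    | succ i ih =>
      obtain ⟨M, X, F, n, sys0, hst, hi⟩ := ih
      obtain ⟨n2, hn2⟩ := hcx.nil_fg (hDf (i + 1)) ((hDC (i + 1)).trans hC0T)
      have sys := sys0.up (le_max_left n n2)
      have hn : (br k K)^[max n n2] (D (i + 1)) = ⊥ := iter_bot_of_le k (le_max_right n n2) hn2
      have hXc : ∀ x ∈ D (i + 1), Coalgebra.comul (R := k) x ∈
          tsp k (D (i + 1)) K ⊔ tsp k K (D (i + 1)) ⊔ tsp k (M i) (M i) := by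
        intro x hx
        have h3 : tsp k (D (i + 1)) (D 0) ⊔ tsp k (D 0) (D (i + 1)) ⊔ tsp k (D i) (D i) ≤
            tsp k (D (i + 1)) K ⊔ tsp k K (D (i + 1)) ⊔ tsp k (M i) (M i) :=
          sup_le_sup (sup_le_sup (tsp_mono k le_rfl hD0K) (tsp_mono k hD0K le_rfl)) (tsp_mono k hi hi)
        exact h3 (hDc i x hx)
      have hDT : D (i + 1) ≤ T := (hDC (i + 1)).trans hC0T
      rcases step2 hS hcx sys hKS hTS (hst i) (hDf (i + 1)) (hDsub (i + 1)) (h1D (i + 1)) hDT hXc hn with h | ⟨j, hj⟩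
      · exact absurd h htop
      set O : Submodule k H := ob k S (D (i + 1)) j with hO
      have sys' := sys.ext hcx (ob_fg k S _ (hDf (i + 1)) j) (ob_sub (hDsub (i + 1)) j)
        (ob_mono k S _ hS.1 (Nat.zero_le j) (h1D (i + 1))) (ob_le hDT hTS j) (ob_com hKS (hst i) hXc j)
        (ob_nil (map_inv_le hS hKS) hn j)
      refine ⟨_, _, _, _, sys', ext_cases (fun Y => GKC.Stb k (S : Set (GroupLike k H)) Y) hst ?_, ?_⟩
      · intro s hs
        rw [top, Submodule.map_sup]
        refine sup_le ((hst i s hs).trans le_sup_left) ?_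
        refine (map_cj_mul s _ _).trans ((mul_le_mul' (map_cj_mul s _ _) (hKS s hs)).trans ?_)
        refine (mul_le_mul' (mul_le_mul' (hKS s hs) ((ob_map k S _ j hs).trans hj)) le_rfl).trans ?_
        exact (mul_le_mul' (sys.top_K hcx O).1 le_rfl).trans (sys.top_K hcx O).2
      · rw [ext_succ]
        exact (ob_mono k S _ hS.1 (Nat.zero_le j)).trans (le_top_O hcx M i _)
  obtain ⟨M, X, F, n, sys, hst, hr⟩ := key r
  refine ⟨M, X, F, r, n, sys, hst, ?_⟩
  refine le_trans ?_ hr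
  rw [hDr]
  exact le_inf hVC1 hVT

end hopf

end Pool.Agent.GKW
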