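import Pool.Agent.Lib_helper2.GKW.W6

/-!
# The growth of a system
-/

set_option autoImplicit false

universe u v

namespace Pool.Agent.GKW

open TensorProduct Pool.Agent.GK Pool.Agent.GKP Pool.Agent.GKF Pool.Agent.GKC Pool.Agent.GKU Pool.Agent.GKV

section final
variable {k : Type u} [Field k] {H : Type v} [Ring H] [HopfAlgebra k H]

variable (k) in
/-- `U` contains `1` and is closed under multiplication and comultiplication -/
structure IsSubbialgebra (U : Submodule k H) : Prop where
  one_mem : (1 : H) ∈ U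
  mul_mem : ∀ a ∈ U, ∀ b ∈ U, a * b ∈ U
  sub : IsSubcoalgebra k U

theorem IsSubbialgebra.mul_le {U : Submodule k H} (hU : IsSubbialgebra k U) : U * U ≤ U :=
  Submodule.mul_le.2 hU.mul_mem

/-- one system -/
theorem one_sys {K T E : Submodule k H} (hcx : Cx k K T E) {M X : ℕ → Submodule k H} {F : Submodule k H} {r n : ℕ}
    (sys : Sys k K T E M X F r n) {U : Submodule k H} (hU : IsSubbialgebra k U)
    (hUA : IsHopfSubalgebra k (U ⊓ coradical k H)) (hTU : T ≤ U) :
    GKdim k H = ⊤ ∨ ∃ d : ℕ, GKsub k (coradical k H) + d ≤ GKdim k H ∧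
      GKsub k (U ⊓ coradical k H) + d ≤ GKsub k U ∧
      (∀ V : Submodule k H, V.FG → V ≤ M r → asm_L k V ≤ GKsub k (U ⊓ coradical k H) + d) ∧
      ∀ S : Finset (GroupLike k H), Sym k S → GKC.Stb k (S : Set (GroupLike k H)) (M r) →
        ∀ V : Submodule k H, V.FG → V ≤ M r * kS k (S : Set (GroupLike k H)) →
          asm_L k V ≤ GKsub k (coradical k H) + d := by
  have hA := hcx.ctx.hA
  have hFT : F ≤ T := sys.FM.trans (sys.MT r)
  have h1M : (1 : H) ∈ M r := sys.FM sys.F1
  obtain ⟨m, x, w, h, hwW, hx, hMW⟩ := sys.letters hcx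
  set W : ℕ := (n + 1) * 3 ^ (r + 1) with hW
  set C' : Submodule k H := F ⊔ (F ⊓ coradical k H).map (HopfAlgebra.antipode k) with hC'
  have hC'f : C'.FG := sys.Ffg.sup ((fg_of_le k sys.Ffg inf_le_left).map _)
  have h1C' : (1 : H) ∈ C' := Submodule.mem_sup_left sys.F1
  have hC'U : C' ≤ U := by
    refine sup_le (hFT.trans hTU) ?_
    rw [Submodule.map_le_iff_le_comap]
    rintro y ⟨hy, hyc⟩
    exact (hUA.antipode_mem y ⟨hTU (hFT hy), hyc⟩).1
  have hd : Cnt k K T F C' x w (n + 1) :=
    { ctx := hcx.ctx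
      let' := h
      fg := sys.Ffg
      sub := sys.Fsub
      one := sys.F1
      CT := hFT
      fg' := hC'f
      CC' := le_sup_left
      SC' := le_sup_right
      mem := hx }
  obtain ⟨B, _, _, q, _, hqc, hq⟩ := exists_quot k (isFW_mod k h)
  have hb2 := fun (s : ℕ) (D : Submodule k H) (hD : D.FG) (hDA : D ≤ coradical k H) => count_low hd q hq s hD hDA
  set cB : Fin m → B := fun j => q (FreeAlgebra.ι k j) with hcB
  set R : ℕ → ℕ := fun s => Module.finrank k ↥(Es k cB w (s : ℤ)) with hR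
  have hfinB : ∀ n, Module.Finite k ↥(Dg k cB ^ n) := fun n => Module.Finite.iff_fg.2 ((Dg_fg k cB).pow n)
  have hfinE : ∀ s, Module.Finite k ↥(Es k cB w s) := fun s => Module.Finite.iff_fg.2 (Es_fg' k cB h.w1 s)
  have hRle : ∀ s : ℕ, R s ≤ Module.finrank k ↥(Dg k cB ^ s) := fun s =>
    Submodule.finrank_mono (Es_le_Dg k cB h.w1 s)
  have hRge : ∀ n : ℕ, Module.finrank k ↥(Dg k cB ^ n) ≤ R ((W + 1) * n) := fun n => by
    refine Submodule.finrank_mono ((pow_le_Es k cB w hwW n).trans (Es_mono k cB w ?_))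
    push_cast
    nlinarith [Int.natCast_nonneg n]
  have hRmono : Monotone R := fun a b hab =>
    Submodule.finrank_mono (Es_mono k cB w (by exact_mod_cast hab))
  rcases growth_prim k cB hqc with ⟨V, hV, hexp⟩ | ⟨d, a, b, ha, hpoly⟩
  · left
    set c' : ℕ := 2 * (n + 1) * ((W + 1) * V + 1) with hc'
    have h1 : asm_L k C' = ⊤ := by
      refine asm_L_top k (W := c') (Nat.mul_pos (by omega) (Nat.succ_pos _)) fun t ht => ?_
      have h1fg : (1 : Submodule k H).FG := by
        rw [Submodule.one_eq_span]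
        exact Submodule.fg_span_singleton 1
      have h2 := hb2 ((W + 1) * (V * t ^ 2)) 1 h1fg (Submodule.one_le.2 hA.one_mem)
      have h3 : Module.finrank k ↥(1 : Submodule k H) = 1 := by
        rw [Submodule.one_eq_span]
        have hnt : Nontrivial H := Bialgebra.nontrivial (R := k)
        exact finrank_span_singleton one_ne_zero
      rw [h3, mul_one, mul_one] at h2
      refine ((hexp t ht).trans (hRge _)).trans (h2.trans ?_)
      have : Module.Finite k ↥(C' ^ (c' * t ^ 2)) := Module.Finite.iff_fg.2 (hC'f.pow _)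
      refine Submodule.finrank_mono (pow_le_pow_right' (Submodule.one_le.2 h1C') ?_)
      rw [hc']
      have h4 : 1 ≤ t ^ 2 := Nat.one_le_pow _ _ ht
      calc 2 * (n + 1) * ((W + 1) * (V * t ^ 2) + 1) ≤ 2 * (n + 1) * ((W + 1) * (V * t ^ 2) + t ^ 2) :=
            Nat.mul_le_mul_left _ (Nat.add_le_add_left h4 _)
        _ = 2 * (n + 1) * ((W + 1) * V + 1) * t ^ 2 := by ring
    rw [eq_top_iff, ← h1]
    exact le_GKdim k (Submodule.one_le.2 h1C') hC'f
  · right
    -- polynomial lower bound of the rank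
    obtain ⟨t, ht1, ht⟩ : ∃ t : ℕ, 1 ≤ t ∧ ∀ n : ℕ, 1 ≤ n → n ^ d ≤ R ((W + 1) * (t * n)) := by
      obtain ⟨t0, ht0⟩ := exists_nat_ge (1 / a)
      refine ⟨t0 + 1, Nat.succ_pos _, fun n hn => ?_⟩
      have h1 := (hpoly ((t0 + 1) * n) (Nat.mul_pos (Nat.succ_pos _) hn)).1
      have h2 : (Module.finrank k ↥(Dg k cB ^ ((t0 + 1) * n)) : ℝ) ≤ (R ((W + 1) * ((t0 + 1) * n)) : ℝ) := by
        exact_mod_cast hRge _
      rcases Nat.eq_zero_or_pos d with hd | hd
      · subst hd
        have h3 : 0 < R ((W + 1) * ((t0 + 1) * n)) := by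
          rw [pow_zero, mul_one] at h1
          have : (0 : ℝ) < (R ((W + 1) * ((t0 + 1) * n)) : ℝ) := lt_of_lt_of_le ha (h1.trans h2)
          exact_mod_cast this
        rw [pow_zero]
        exact h3
      · have h3 : (1 : ℝ) ≤ a * ((t0 : ℝ) + 1) := by
          have h4 : 1 / a ≤ (t0 : ℝ) + 1 := by linarith
          rw [div_le_iff₀ ha] at h4
          linarith
        have h4 : (1 : ℝ) ≤ a * ((t0 : ℝ) + 1) ^ d := by
          have h5 : ((t0 : ℝ) + 1) ≤ ((t0 : ℝ) + 1) ^ d := by
            refine le_self_pow₀ ?_ (by omega)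
            have : (0 : ℝ) ≤ t0 := Nat.cast_nonneg _
            linarith
          nlinarith
        have h5 : (n : ℝ) ^ d ≤ a * (((t0 + 1) * n : ℕ) : ℝ) ^ d := by
          push_cast
          rw [mul_pow, ← mul_assoc]
          have h6 : (0 : ℝ) ≤ (n : ℝ) ^ d := by positivity
          nlinarith
        have h6 : (n : ℝ) ^ d ≤ (R ((W + 1) * ((t0 + 1) * n)) : ℝ) := h5.trans (h1.trans h2)
        exact_mod_cast h6
    have hlow : ∀ (N : ℕ) (D : Submodule k H), D.FG → D ≤ coradical k H → N ^ d * Module.finrank k D ≤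
        Module.finrank k ↥(C' ^ (2 * (n + 1) * ((W + 1) * t + 1) * (N + 1)) * D) := by
      intro N D hD hDA
      have h1 : N ^ d ≤ R ((W + 1) * (t * (N + 1))) :=
        (Nat.pow_le_pow_left (Nat.le_succ N) d).trans (ht (N + 1) (Nat.succ_pos N))
      have h2 := hb2 ((W + 1) * (t * (N + 1))) D hD hDA
      have : Module.Finite k ↥(C' ^ (2 * (n + 1) * ((W + 1) * t + 1) * (N + 1)) * D) :=
        Module.Finite.iff_fg.2 ((hC'f.pow _).mul hD)
      calc N ^ d * Module.finrank k D ≤ R ((W + 1) * (t * (N + 1))) * Module.finrank k D :=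
            Nat.mul_le_mul_right _ h1
        _ ≤ _ := h2
        _ ≤ _ := by
            refine Submodule.finrank_mono (mul_le_mul' (pow_le_pow_right' (Submodule.one_le.2 h1C') ?_) le_rfl)
            calc 2 * (n + 1) * ((W + 1) * (t * (N + 1)) + 1) ≤
                  2 * (n + 1) * ((W + 1) * (t * (N + 1)) + (N + 1)) :=
                  Nat.mul_le_mul_left _ (Nat.add_le_add_left (Nat.succ_pos N) _)
              _ = 2 * (n + 1) * ((W + 1) * t + 1) * (N + 1) := by ring
    obtain ⟨c0, hc0⟩ := exists_nat_ge (b * ((W : ℝ) + 1) ^ d)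
    have hRup : ∀ N : ℕ, R (W * N) ≤ (c0 + 1) * (N + 1) ^ d := by
      intro N
      have h1 : R (W * N) ≤ R ((W + 1) * (N + 1)) := hRmono (by nlinarith)
      refine h1.trans ?_
      have h2 := (hpoly ((W + 1) * (N + 1)) (Nat.mul_pos (Nat.succ_pos _) (Nat.succ_pos _))).2
      have h3 : (R ((W + 1) * (N + 1)) : ℝ) ≤ (Module.finrank k ↥(Dg k cB ^ ((W + 1) * (N + 1))) : ℝ) := by
        exact_mod_cast hRle _
      have h4 : (R ((W + 1) * (N + 1)) : ℝ) ≤ (((c0 + 1) * (N + 1) ^ d : ℕ) : ℝ) := by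
        refine (h3.trans h2).trans ?_
        push_cast
        rw [mul_pow, ← mul_assoc]
        refine mul_le_mul_of_nonneg_right ?_ (by positivity)
        linarith
      exact_mod_cast h4
    -- upper bound for finite-dimensional subspaces of subcoalgebras `P` with `P ^ N ≤ (M r) ^ N * coradical`
    have hup : ∀ (A P V : Submodule k H), IsSubcoalgebra k P → (1 : H) ∈ P → P ⊓ coradical k H ≤ A →
        (∀ N : ℕ, P ^ N ≤ M r ^ N * coradical k H) → V.FG → V ≤ P → asm_L k V ≤ GKsub k A + d := by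
      intro A P V hPs h1P hPA hPN hV hVP
      obtain ⟨Z, hZf, hZs, hVZ, hZP⟩ := fund_in hPs (hV.sup (Submodule.fg_span_singleton (1 : H)))
        (sup_le hVP ((Submodule.span_singleton_le_iff_mem _ _).2 h1P))
      have h1Z : (1 : H) ∈ Z := hVZ (Submodule.mem_sup_right (Submodule.mem_span_singleton_self 1))
      refine (asm_L_mono k (le_sup_left.trans hVZ) hZf).trans ?_
      refine gw_upper k (A := A) hZf h1Z (E := Z ⊓ coradical k H) (fg_of_le k hZf inf_le_left)
        ⟨h1Z, hA.one_mem⟩ ((inf_le_inf hZP le_rfl).trans hPA) (c0 + 1) d fun N => ?_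
      have hpow : Z ^ N ≤ Em k K x w ((W * N : ℕ) : ℤ) * coradical k H :=
        ((pow_le_pow_left' hZP N).trans (hPN N)).trans (mul_le_mul' (pow_le_Em k h hMW N) le_rfl)
      have h2 := count_up hd q hq (W * N) (hZf.pow N) (GKC.sub_pow hZs N) hpow
      refine h2.trans ((Nat.mul_le_mul_right _ (hRup N)).trans (Nat.mul_le_mul_left _ ?_))
      have : Module.Finite k ↥((Z ⊓ coradical k H) ^ N) :=
        Module.Finite.iff_fg.2 ((fg_of_le k hZf inf_le_left).pow N)
      exact Submodule.finrank_mono (nd_pow k hZf hZs N)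
    refine ⟨d, ?_, ?_, ?_, ?_⟩
    · exact gw_lower k (A := coradical k H) (V := C') hA.one_mem hA.mul_le hC'f h1C'
        (2 * (n + 1) * ((W + 1) * t + 1)) d fun N D hD _ hDA => hlow N D hD hDA
    · refine gw_lower_U k (A := U ⊓ coradical k H) (V := C') (U := U) ⟨hU.one_mem, hA.one_mem⟩ ?_ hC'f h1C'
        inf_le_left hC'U (2 * (n + 1) * ((W + 1) * t + 1)) d fun N D hD _ hDA => hlow N D hD (hDA.trans inf_le_right)
      exact le_inf ((mul_le_mul' inf_le_left inf_le_left).trans hU.mul_le)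
        ((mul_le_mul' inf_le_right inf_le_right).trans hA.mul_le)
    · intro V hV hVM
      refine hup _ (M r) V (sys.sub r) h1M (inf_le_inf ((sys.MT r).trans hTU) le_rfl) (fun N => ?_) hV hVM
      exact le_mul_one k hA.one_mem _
    · intro S hS hMS V hV hVM
      have h1k : (1 : H) ∈ kS k (S : Set (GroupLike k H)) := Submodule.one_le.1 (one_le_kS k (Finset.mem_coe.2 hS.1))
      have hPs : IsSubcoalgebra k (M r * kS k (S : Set (GroupLike k H))) :=
        (sub_iff k).2 ⟨LS_mul k (LS_of_sub k (sys.sub r)) (LS_of_sub k (kS_sub k _)),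
          RS_mul k (RS_of_sub k (sys.sub r)) (RS_of_sub k (kS_sub k _))⟩
      have h1P : (1 : H) ∈ M r * kS k (S : Set (GroupLike k H)) := by
        have := Submodule.mul_mem_mul h1M h1k
        rwa [mul_one] at this
      refine hup _ (M r * kS k (S : Set (GroupLike k H))) V hPs h1P inf_le_right (fun N => ?_) hV hVM
      rw [(commute_kS k hS hMS).mul_pow]
      refine mul_le_mul' le_rfl ?_
      induction N with
      | zero => rw [pow_zero]; exact Submodule.one_le.2 hA.one_mem
      | succ N ih => rw [pow_succ]; exact (mul_le_mul' ih (kS_le_cor k _)).trans hA.mul_le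

end final

end Pool.Agent.GKW
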