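import Pool.Agent.Lib_helper2.GKW.W7
import Pool.Agent.Lib_helper2.GKV.V9

/-!
# The main theorem
-/

set_option autoImplicit false

universe u v

namespace Pool.Agent.GKW

open TensorProduct Pool.Agent.GK Pool.Agent.GKP Pool.Agent.GKC Pool.Agent.GKU Pool.Agent.GKV

section base
variable {k : Type u} [Field k] {H : Type v} [Ring H] [HopfAlgebra k H]

/-- the finite-dimensional subcoalgebras of `U` which meet the coradical inside `L` -/
def IsTT (U L C : Submodule k H) : Prop := C.FG ∧ IsSubcoalgebra k C ∧ C ≤ U ∧ C ⊓ coradical k H ≤ L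

/-- their sum -/
def TT (U L : Submodule k H) : Submodule k H := sSup {C | IsTT U L C}

theorem IsTT.sup {U L C C' : Submodule k H} (h : IsTT U L C) (h' : IsTT U L C') : IsTT U L (C ⊔ C') := by
  refine ⟨h.1.sup h'.1, cs_sup k h.2.1 h'.2.1, sup_le h.2.2.1 h'.2.2.1, ?_⟩
  refine (cs_main k (cs_inf k (cs_sup k h.2.1 h'.2.1) (GKP.coradical_sub k)) inf_le_right).trans (sSup_le ?_)
  rintro F ⟨hF, hFr⟩
  have hFc : F ≤ coradical k H := le_sSup hF
  rcases cs_simple_sup k h.2.1 h'.2.1 hF (hFr.trans inf_le_left) with h1 | h1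
  · exact (le_inf h1 hFc).trans h.2.2.2
  · exact (le_inf h1 hFc).trans h'.2.2.2

theorem isTT_bot (U L : Submodule k H) : IsTT U L (⊥ : Submodule k H) :=
  ⟨Submodule.fg_bot, fun x hx => by
    rw [Submodule.mem_bot] at hx
    rw [hx, map_zero]
    exact Submodule.zero_mem _, bot_le, inf_le_left.trans bot_le⟩

theorem mem_TT {U L : Submodule k H} {x : H} : x ∈ TT U L ↔ ∃ C, IsTT U L C ∧ x ∈ C := by
  constructor
  · intro hx
    unfold TT at hx
    rw [sSup_eq_iSup'] at hx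
    induction hx using Submodule.iSup_induction' with
    | mem C x hx => exact ⟨C.1, C.2, hx⟩
    | zero => exact ⟨⊥, isTT_bot U L, Submodule.zero_mem _⟩
    | add x y _ _ hx hy =>
      obtain ⟨C, hC, hx⟩ := hx
      obtain ⟨C', hC', hy⟩ := hy
      exact ⟨C ⊔ C', hC.sup hC', Submodule.add_mem _ (Submodule.mem_sup_left hx) (Submodule.mem_sup_right hy)⟩
  · rintro ⟨C, hC, hx⟩
    exact (le_sSup (show C ∈ {C | IsTT U L C} from hC)) hx

theorem ctx_TT (hA : IsHopfSubalgebra k (coradical k H)) {U L : Submodule k H} (hU : IsSubbialgebra k U)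
    (hL : IsHopfSubalgebra k L) (hLU : L ≤ U ⊓ coradical k H) : Ctx k (coradical k H) L (TT U L) where
  hA := hA
  hK := hL
  KA := hLU.trans inf_le_right
  KT := by
    intro x hx
    obtain ⟨Z, h1, h2, h3, h4⟩ := fund_in hL.sub (Submodule.fg_span_singleton x)
      ((Submodule.span_singleton_le_iff_mem _ _).2 hx)
    exact mem_TT.2 ⟨Z, ⟨h1, h2, h4.trans (hLU.trans inf_le_left), inf_le_left.trans h4⟩,
      h3 (Submodule.mem_span_singleton_self x)⟩
  subT := by
    unfold TT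
    rw [sSup_eq_iSup']
    exact cs_iSup k fun C => C.2.2.1
  mulT := by
    rw [Submodule.mul_le]
    intro x hx y hy
    obtain ⟨C, hC, hx⟩ := mem_TT.1 hx
    obtain ⟨C', hC', hy⟩ := mem_TT.1 hy
    refine mem_TT.2 ⟨C * C', ⟨hC.1.mul hC'.1, ?_, (mul_le_mul' hC.2.2.1 hC'.2.2.1).trans hU.mul_le, ?_⟩,
      Submodule.mul_mem_mul hx hy⟩
    · exact (sub_iff k).2 ⟨LS_mul k (LS_of_sub k hC.2.1) (LS_of_sub k hC'.2.1),
        RS_mul k (RS_of_sub k hC.2.1) (RS_of_sub k hC'.2.1)⟩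
    · exact (nd_mul k hC.1 hC'.1 hC.2.1 hC'.2.1).trans ((mul_le_mul' hC.2.2.2 hC'.2.2.2).trans hL.mul_le)
  inf := by
    rintro x ⟨hx, hxc⟩
    obtain ⟨C, hC, hx⟩ := mem_TT.1 hx
    exact hC.2.2.2 ⟨hx, hxc⟩

theorem TT_le (U L : Submodule k H) : TT U L ≤ U := sSup_le fun _ hC => hC.2.2.1

theorem stb_TT (hA : IsHopfSubalgebra k (coradical k H)) {U L : Submodule k H} {S : Finset (GroupLike k H)}
    (hSU : GKC.Stb k (S : Set (GroupLike k H)) U)
    (hSL : GKC.Stb k (S : Set (GroupLike k H)) L) : GKC.Stb k (S : Set (GroupLike k H)) (TT U L) := by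
  intro s hs
  rw [Submodule.map_le_iff_le_comap]
  intro x hx
  obtain ⟨C, hC, hx⟩ := mem_TT.1 hx
  refine mem_TT.2 ⟨C.map (cj k s), ⟨hC.1.map _, cj_sub k s hC.2.1, (Submodule.map_mono hC.2.2.1).trans (hSU s hs), ?_⟩,
    Submodule.mem_map_of_mem hx⟩
  rintro _ ⟨⟨y, hy, rfl⟩, hyc⟩
  have h1 : y ∈ coradical k H := by
    have := cj_cor hA (Set.univ) s⁻¹ (Set.mem_univ _) (Submodule.mem_map_of_mem hyc)
    rwa [cj_inv_cj] at this
  exact hSL s hs (Submodule.mem_map_of_mem (hC.2.2.2 ⟨hy, h1⟩))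

/-- commutators with the algebra generated by `E` -/
theorem br_Kc_iter {E X : Submodule k H} (h1 : (1 : H) ∈ E) (hcomm : ∀ a ∈ Kc k E, ∀ b ∈ Kc k E, a * b = b * a)
    (hX : br k E X ≤ X) (j : ℕ) : (br k (Kc k E))^[j] X ≤ (br k E)^[j] X * Kc k E := by
  obtain ⟨hK1, hEK, hKK, -, -, -⟩ := kc_facts k h1
  have hbr : ∀ j, br k E ((br k E)^[j] X) ≤ (br k E)^[j] X := by
    intro j
    induction j with
    | zero => exact hX
    | succ j ih => rw [Function.iterate_succ_apply']; exact br_mono k le_rfl ih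
  induction j with
  | zero => exact le_mul_one k hK1 _
  | succ j ih =>
    rw [Function.iterate_succ_apply', Function.iterate_succ_apply']
    refine (br_mono k le_rfl ih).trans ?_
    set Y : Submodule k H := (br k E)^[j] X with hY
    rw [br_le]
    intro a ha z hz
    induction hz using Submodule.mul_induction_on' with
    | mem_mul_mem y hy b hb =>
      have h2 : a * (y * b) - y * b * a = (a * y - y * a) * b + y * (a * b - b * a) := by noncomm_ring
      rw [h2, hcomm a ha b hb, sub_self, mul_zero, add_zero]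
      have h3 := Submodule.mul_mem_mul (comm_Kc k h1 (hbr j) ha hy) hb
      rw [mul_assoc] at h3
      exact mul_le_mul' le_rfl hKK h3
    | add z _ z' _ hz hz' =>
      have h2 : a * (z + z') - (z + z') * a = (a * z - z * a) + (a * z' - z' * a) := by noncomm_ring
      rw [h2]
      exact Submodule.add_mem _ hz hz'

/-- a Hopf subalgebra which is generated by finitely many elements -/
theorem exists_gen {L : Submodule k H} (hL : IsHopfSubalgebra k L) {s : Finset H}
    (hs : Subalgebra.toSubmodule (Algebra.adjoin k (s : Set H)) = L) :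
    ∃ E : Submodule k H, E.FG ∧ IsSubcoalgebra k E ∧ (1 : H) ∈ E ∧ E ≤ L ∧ L = Kc k E := by
  have hsL : ∀ x ∈ s, x ∈ L := fun x hx => by
    rw [← hs]
    exact Algebra.subset_adjoin hx
  obtain ⟨E, hEf, hEs, hXE, hEL⟩ := fund_in hL.sub (X := Submodule.span k (s : Set H) ⊔ Submodule.span k {1})
    ((Submodule.fg_span s.finite_toSet).sup (Submodule.fg_span_singleton _))
    (sup_le (Submodule.span_le.2 hsL) ((Submodule.span_singleton_le_iff_mem _ _).2 hL.one_mem))
  have h1E : (1 : H) ∈ E := hXE (Submodule.mem_sup_right (Submodule.mem_span_singleton_self 1))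
  refine ⟨E, hEf, hEs, h1E, hEL, le_antisymm ?_ ?_⟩
  · obtain ⟨hK1, hEK, hKK, -, -, -⟩ := kc_facts k h1E
    intro x hx
    rw [← hs] at hx
    have hx' : x ∈ Algebra.adjoin k (s : Set H) := hx
    induction hx' using Algebra.adjoin_induction with
    | mem y hy => exact hEK (hXE (Submodule.mem_sup_left (Submodule.subset_span hy)))
    | algebraMap r => rw [Algebra.algebraMap_eq_smul_one]; exact Submodule.smul_mem _ _ hK1
    | add y z hy' hz' hy hz => exact Submodule.add_mem _ (hy hy') (hz hz')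
    | mul y z hy' hz' hy hz => exact hKK (Submodule.mul_mem_mul (hy hy') (hz hz'))
  · refine iSup_le fun n => ?_
    induction n with
    | zero => rw [pow_zero]; exact Submodule.one_le.2 hL.one_mem
    | succ n ih => rw [pow_succ]; exact (mul_le_mul' ih hEL).trans hL.mul_le

/-- the two kinds of bases -/
theorem cx_exists (hA : IsHopfSubalgebra k (coradical k H)) {U L : Submodule k H} (hU : IsSubbialgebra k U)
    (hL : IsHopfSubalgebra k L) (hLU : L ≤ U ⊓ coradical k H)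
    (hcomm : ∀ a ∈ U ⊓ coradical k H, ∀ b ∈ U ⊓ coradical k H, a * b = b * a)
    (hnil : ∀ a ∈ U ⊓ coradical k H, ∀ x ∈ U, ∃ n : ℕ, ((cm k a)^[n]) x = 0)
    (h : (∃ s : Finset H, Subalgebra.toSubmodule (Algebra.adjoin k (s : Set H)) = L) ∨
      ∀ a ∈ L, ∀ x ∈ U, a * x = x * a) : ∃ E : Submodule k H, Cx k L (TT U L) E := by
  have hctx := ctx_TT hA hU hL hLU
  have hTU := TT_le U L
  rcases h with ⟨s, hs⟩ | hc
  · obtain ⟨E, hEf, hEs, h1E, hEL, hLE⟩ := exists_gen hL hs
    have hLc : ∀ a ∈ L, ∀ b ∈ L, a * b = b * a := fun a ha b hb => hcomm a (hLU ha) b (hLU hb)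
    refine ⟨E, ⟨hctx, hLc, hEf, hEs, h1E, hEL, ?_, ?_⟩⟩
    · intro X _ hX a ha x hx
      rw [hLE] at ha ⊢
      exact comm_Kc k h1E hX ha hx
    · intro x hx
      obtain ⟨n, hn⟩ := exists_iter_U k hU.mul_le inf_le_left hcomm hnil hEf (hEL.trans hLU)
        (Submodule.fg_span_singleton x) ((Submodule.span_singleton_le_iff_mem _ _).2 (hTU hx))
      refine ⟨n, ?_⟩
      refine iter_bot_mono k (le_cl k E _ n) ?_
      rw [eq_bot_iff]
      have h2 := br_Kc_iter (k := k) h1E (by rw [← hLE]; exact hLc) (cl_br k hn) n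
      rw [cl_iter_bot k hn, Submodule.bot_mul, ← hLE] at h2
      exact h2
  · have h1f : (1 : Submodule k H).FG := by
      rw [Submodule.one_eq_span]
      exact Submodule.fg_span_singleton 1
    refine ⟨1, ⟨hctx, fun a ha b hb => hcomm a (hLU ha) b (hLU hb), h1f, GKC.sub_one_mem,
      Submodule.one_le.1 le_rfl, Submodule.one_le.2 hL.one_mem, ?_, ?_⟩⟩
    · intro X hX _ a ha x hx
      rw [hc a ha x (hTU (hX hx)), sub_self]
      exact Submodule.zero_mem _
    · intro x hx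
      refine ⟨1, ?_⟩
      rw [Function.iterate_one, eq_bot_iff, br_le]
      intro a ha y hy
      obtain ⟨c, rfl⟩ := Submodule.mem_span_singleton.1 hy
      rw [mul_smul_comm, smul_mul_assoc, hc a ha x (hTU hx), sub_self]
      exact Submodule.zero_mem _

end base

section final
variable (k : Type u) [Field k] {H : Type v} [Ring H] [HopfAlgebra k H]

/-- The theorem. -/
theorem main (hA : IsHopfSubalgebra k (coradical k H)) {U : Submodule k H} (hU : IsSubbialgebra k U)
    (hUA : IsHopfSubalgebra k (U ⊓ coradical k H))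
    (hcomm : ∀ a ∈ U ⊓ coradical k H, ∀ b ∈ U ⊓ coradical k H, a * b = b * a)
    (hnil : ∀ a ∈ U ⊓ coradical k H, ∀ x ∈ U, ∃ n : ℕ, (fun y => a * y - y * a)^[n] x = 0)
    {Γ : Subgroup (GroupLike k H)} (hΓU : ∀ g ∈ Γ, ∀ x ∈ U, g.val * x * (g⁻¹).val ∈ U)
    (hspan : U * Submodule.span k (GroupLike.val '' (Γ : Set (GroupLike k H))) = ⊤)
    {P : Submodule k H → Prop}
    (h6 : ∀ S : Finset (GroupLike k H), (S : Set (GroupLike k H)) ⊆ Γ → ∀ V : Submodule k H, V.FG →
      V ≤ U ⊓ coradical k H → ∃ L : Submodule k H, P L ∧ IsHopfSubalgebra k L ∧ V ≤ L ∧ L ≤ U ⊓ coradical k H ∧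
        (∀ s ∈ S, ∀ y ∈ L, s.val * y * (s⁻¹).val ∈ L) ∧
        ((∃ s : Finset H, Subalgebra.toSubmodule (Algebra.adjoin k (s : Set H)) = L) ∨
          ∀ a ∈ L, ∀ x ∈ U, a * x = x * a)) :
    GKdim k H = ⊤ ∨
      ((∀ S : Finset (GroupLike k H), (S : Set (GroupLike k H)) ⊆ Γ → ∀ V : Submodule k H, V.FG → V ≤ U →
        ∃ (X L : Submodule k H), X.FG ∧ P L ∧ IsHopfSubalgebra k L ∧ L ≤ U ⊓ coradical k H ∧ V ≤ X * L ∧
          X * L ≤ U ∧ ∀ s ∈ S, ∀ y ∈ X * L, s.val * y * (s⁻¹).val ∈ X * L) ∧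
      ∃ d m : ℕ, GKsub k (U ⊓ coradical k H) = d ∧ GKsub k U = d + m ∧
        GKdim k H = GKsub k (coradical k H) + m ∧
        ((∀ a ∈ coradical k H, ∀ b ∈ coradical k H, a * b = b * a) → ∃ e : ℕ, GKsub k (coradical k H) = e)) := by
  classical
  by_cases htop : GKdim k H = ⊤
  · exact Or.inl htop
  right
  have hnil' : ∀ a ∈ U ⊓ coradical k H, ∀ x ∈ U, ∃ n : ℕ, ((cm k a)^[n]) x = 0 := by
    intro a ha x hx
    obtain ⟨n, hn⟩ := hnil a ha x hx
    refine ⟨n, ?_⟩
    have : ((cm k a : H →ₗ[k] H) : H → H) = fun y => a * y - y * a := funext fun y => cm_apply k a y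
    rw [this]
    exact hn
  -- a stable system for every finite symmetric set
  have hst : ∀ S : Finset (GroupLike k H), (S : Set (GroupLike k H)) ⊆ Γ → Sym k S → ∀ V : Submodule k H, V.FG →
      V ≤ U → ∃ (L E : Submodule k H) (M X : ℕ → Submodule k H) (F : Submodule k H) (r n : ℕ),
        P L ∧ L ≤ U ⊓ coradical k H ∧ Cx k L (TT U L) E ∧ Sys k L (TT U L) E M X F r n ∧
        GKC.Stb k (S : Set (GroupLike k H)) (M r) ∧ V ≤ M r := by
    intro S hSΓ hS V hV hVU
    obtain ⟨C, hCf, hCs, hVC, hCU⟩ := fund_in hU.sub hV hVU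
    obtain ⟨L, hPL, hL, hCL, hLU, hSL, hor⟩ := h6 S hSΓ (C ⊓ coradical k H) (fg_of_le k hCf inf_le_left)
      (inf_le_inf hCU le_rfl)
    obtain ⟨E, hcx⟩ := cx_exists hA hU hL hLU hcomm hnil' hor
    have hSU' : GKC.Stb k (S : Set (GroupLike k H)) U := by
      intro s hs
      rw [Submodule.map_le_iff_le_comap]
      intro y hy
      rw [Submodule.mem_comap, cj_apply, ← mul_assoc]
      exact hΓU s (hSΓ hs) y hy
    have hSL' : GKC.Stb k (S : Set (GroupLike k H)) L := by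
      intro s hs
      rw [Submodule.map_le_iff_le_comap]
      intro y hy
      rw [Submodule.mem_comap, cj_apply, ← mul_assoc]
      exact hSL s hs y hy
    have hCT : C ≤ TT U L := le_sSup (show C ∈ {C | IsTT U L C} from ⟨hCf, hCs, hCU, hCL⟩)
    obtain ⟨M, X, F, r, n, sys, hMS, hCM⟩ := sys_exists hS hcx hSL' (stb_TT hA hSU' hSL') htop hCf hCT
    exact ⟨L, E, M, X, F, r, n, hPL, hLU, hcx, sys, hMS r, hVC.trans hCM⟩
  refine ⟨?_, ?_⟩
  · intro S hSΓ V hV hVU
    obtain ⟨T, hT, hST, hTΓ⟩ := exists_sym_in k S hSΓ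
    obtain ⟨L, E, M, X, F, r, n, hPL, hLU, hcx, sys, hMS, hVM⟩ := hst T hTΓ hT V hV hVU
    have hL := hcx.ctx.hK
    have hLM : L ≤ M r := sys.zero ▸ sys.mono (Nat.zero_le r)
    have hML : (Submodule.span k {1} ⊔ X r) * L = M r := by
      rw [Submodule.sup_mul, ← Submodule.one_eq_span, one_mul]
      exact le_antisymm (sup_le hLM ((mul_le_mul' (sys.XM r) le_rfl).trans (sys.MK r))) (sys.cov r)
    refine ⟨Submodule.span k {1} ⊔ X r, L, (Submodule.fg_span_singleton _).sup (sys.Xfg r), hPL, hL, hLU, ?_, ?_, ?_⟩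
    · rw [hML]; exact hVM
    · rw [hML]; exact (sys.MT r).trans (TT_le U L)
    · rw [hML]
      intro s hs y hy
      have := hMS s (hST hs) (Submodule.mem_map_of_mem hy)
      rwa [cj_apply, ← mul_assoc] at this
  -- the numbers
  let Q : Set ℕ := {d | GKsub k (coradical k H) + d ≤ GKdim k H ∧ GKsub k (U ⊓ coradical k H) + d ≤ GKsub k U}
  have hsys : ∀ (S : Finset (GroupLike k H)), (S : Set (GroupLike k H)) ⊆ Γ → Sym k S → ∀ V : Submodule k H, V.FG →
      V ≤ U → ∃ d ∈ Q, asm_L k V ≤ GKsub k (U ⊓ coradical k H) + d ∧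
        ∀ V' : Submodule k H, V'.FG → V' ≤ V * kS k (S : Set (GroupLike k H)) →
          asm_L k V' ≤ GKsub k (coradical k H) + d := by
    intro S hSΓ hS V hV hVU
    obtain ⟨L, E, M, X, F, r, n, -, hLU, hcx, sys, hMS, hVM⟩ := hst S hSΓ hS V hV hVU
    rcases one_sys hcx sys hU hUA (TT_le U L) with h | ⟨d, h1, h2, h3, h4⟩
    · exact absurd h htop
    · exact ⟨d, ⟨h1, h2⟩, h3 V hV hVM, fun V' hV' hle => h4 S hS hMS V' hV' (hle.trans (mul_le_mul' hVM le_rfl))⟩
  have hbdd : BddAbove Q := by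
    by_contra hcon
    rw [not_bddAbove_iff] at hcon
    apply htop
    rw [eq_top_iff]
    refine ENNReal.le_of_forall_nnreal_lt fun y hy => ?_
    obtain ⟨N, hN⟩ := exists_nat_ge y
    obtain ⟨d, hd, hlt⟩ := hcon N
    calc (y : ENNReal) ≤ (N : ENNReal) := by exact_mod_cast hN
      _ ≤ (d : ENNReal) := by exact_mod_cast hlt.le
      _ ≤ GKsub k (coradical k H) + d := le_add_self
      _ ≤ GKdim k H := hd.1
  have hsym1 : Sym k ({1} : Finset (GroupLike k H)) := ⟨by simp, fun s hs => by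
    rw [Finset.mem_singleton] at hs ⊢
    rw [hs, inv_one]⟩
  have h1Γ : (({1} : Finset (GroupLike k H)) : Set (GroupLike k H)) ⊆ Γ := by
    rw [Finset.coe_singleton, Set.singleton_subset_iff]
    exact Γ.one_mem
  have hQne : Q.Nonempty := by
    obtain ⟨d, hd, _⟩ := hsys {1} h1Γ hsym1 ⊥ Submodule.fg_bot bot_le
    exact ⟨d, hd⟩
  set m : ℕ := sSup Q with hm
  have hmQ : m ∈ Q := Nat.sSup_mem hQne hbdd
  have hle : ∀ d ∈ Q, d ≤ m := fun d hd => le_csSup hbdd hd
  have hHm : GKdim k H = GKsub k (coradical k H) + m := by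
    refine le_antisymm ?_ hmQ.1
    refine iSup₂_le fun V hV => ?_
    obtain ⟨D, S, hD, hDU, hSΓ, hVD⟩ := cover k (U := U) (Γ := (Γ : Set (GroupLike k H))) hV.2 (by
      rw [kS, hspan]; exact le_top)
    obtain ⟨T, hT, hST, hTΓ⟩ := exists_sym_in k S hSΓ
    obtain ⟨d, hd, -, h2⟩ := hsys T hTΓ hT D hD hDU
    refine (h2 V hV.2 (hVD.trans (mul_le_mul' le_rfl (kS_mono k hST)))).trans ?_
    exact add_le_add le_rfl (by exact_mod_cast hle d hd)
  have hUm : GKsub k U = GKsub k (U ⊓ coradical k H) + m := by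
    refine le_antisymm ?_ hmQ.2
    refine iSup₂_le fun V hV => ?_
    obtain ⟨d, hd, h1, -⟩ := hsys {1} h1Γ hsym1 V hV.1.2 hV.2
    exact h1.trans (add_le_add le_rfl (by exact_mod_cast hle d hd))
  have hUH : GKsub k (U ⊓ coradical k H) ≠ ⊤ := by
    intro h
    apply htop
    rw [eq_top_iff, ← h]
    refine iSup₂_le fun V hV => ?_
    exact le_GKdim k hV.1.1 hV.1.2
  obtain ⟨d, hd⟩ : ∃ d : ℕ, GKsub k (U ⊓ coradical k H) = d := by
    rcases GKsub_comm k (A := U ⊓ coradical k H) ⟨hU.one_mem, hA.one_mem⟩ hcomm with h | h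
    · exact absurd h hUH
    · exact h
  refine ⟨d, m, hd, by rw [hUm, hd], hHm, fun hc => ?_⟩
  rcases GKsub_comm k (A := coradical k H) hA.one_mem hc with h | h
  · exact absurd (by rw [hHm, h, top_add]) htop
  · exact h

end final

end Pool.Agent.GKW
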