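import Pool.Agent.Lib_helper2.GKW.W8

/-!
# The coradical of a product, and the final form
-/

set_option autoImplicit false

universe u v

namespace Pool.Agent.GKW

open TensorProduct Pool.Agent.GK Pool.Agent.GKP Pool.Agent.GKC Pool.Agent.GKU Pool.Agent.GKV

section cor
variable {k : Type u} [Field k] {H : Type v} [Ring H] [HopfAlgebra k H]

/-- a bijection which preserves subcoalgebras preserves the coradical -/
theorem cor_map (φ ψ : H →ₗ[k] H) (h1 : ∀ x, ψ (φ x) = x) (h2 : ∀ x, φ (ψ x) = x)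
    (hφ : ∀ D : Submodule k H, IsSubcoalgebra k D → IsSubcoalgebra k (D.map φ))
    (hψ : ∀ D : Submodule k H, IsSubcoalgebra k D → IsSubcoalgebra k (D.map ψ)) :
    (coradical k H).map φ ≤ coradical k H := by
  rw [Submodule.map_le_iff_le_comap]
  refine sSup_le fun F hF => ?_
  rw [← Submodule.map_le_iff_le_comap]
  have hF' : IsSimpleSubcoalgebra k F := hF
  refine le_sSup (show F.map φ ∈ {D | IsSimpleSubcoalgebra k D} from ⟨hφ F hF'.1, ?_, ?_⟩)
  · obtain ⟨x, hx, hx0⟩ := (Submodule.ne_bot_iff F).1 hF'.2.1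
    intro h
    apply hx0
    have h3 : φ x ∈ F.map φ := Submodule.mem_map_of_mem hx
    rw [h, Submodule.mem_bot] at h3
    rw [← h1 x, h3, map_zero]
  · intro E hE hEF
    have h3 : (E.map ψ) ≤ F := by
      rw [Submodule.map_le_iff_le_comap]
      intro y hy
      obtain ⟨x, hx, rfl⟩ := hEF hy
      rw [Submodule.mem_comap, h1]
      exact hx
    have h4 : (E.map ψ).map φ = E := by
      ext y
      constructor
      · rintro ⟨_, ⟨z, hz, rfl⟩, rfl⟩
        rw [h2]
        exact hz
      · intro hy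
        exact ⟨ψ y, ⟨y, hy, rfl⟩, h2 y⟩
    rcases hF'.2.2 _ (hψ E hE) h3 with h | h
    · left
      rw [← h4, h, Submodule.map_bot]
    · right
      rw [← h4, h]

theorem sub_mulRight (g : GroupLike k H) (D : Submodule k H) (hD : IsSubcoalgebra k D) :
    IsSubcoalgebra k (D.map (LinearMap.mulRight k g.val)) := by
  rintro _ ⟨x, hx, rfl⟩
  rw [LinearMap.mulRight_apply, Bialgebra.comul_mul, g.2.comul_eq_tmul_self]
  have h1 : tsp k D D ≤ (tsp k (D.map (LinearMap.mulRight k g.val)) (D.map (LinearMap.mulRight k g.val))).comap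
      (LinearMap.mulRight k (g.val ⊗ₜ[k] g.val)) := by
    rw [tsp_le]
    intro a ha b hb
    rw [Submodule.mem_comap, LinearMap.mulRight_apply, Algebra.TensorProduct.tmul_mul_tmul]
    exact tmul_mem_tsp k ⟨a, ha, rfl⟩ ⟨b, hb, rfl⟩
  exact h1 (hD x hx)

theorem cor_mul_grp (g : GroupLike k H) {x : H} (hx : x ∈ coradical k H) : x * g.val ∈ coradical k H := by
  refine cor_map (LinearMap.mulRight k g.val) (LinearMap.mulRight k (g⁻¹).val) (fun x => ?_) (fun x => ?_)
    (fun D hD => sub_mulRight g D hD) (fun D hD => sub_mulRight g⁻¹ D hD) ⟨x, hx, rfl⟩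
  · rw [LinearMap.mulRight_apply, LinearMap.mulRight_apply, mul_assoc, grp_mul_inv, mul_one]
  · rw [LinearMap.mulRight_apply, LinearMap.mulRight_apply, mul_assoc, grp_inv_mul, mul_one]

theorem cor_cj (g : GroupLike k H) {x : H} (hx : x ∈ coradical k H) : cj k g x ∈ coradical k H :=
  cor_map (cj k g) (cj k g⁻¹) (fun x => cj_inv_cj k g x) (fun x => cj_cj_inv k g x)
    (fun D hD => cj_sub k g hD) (fun D hD => cj_sub k g⁻¹ hD) ⟨x, hx, rfl⟩

/-- the coradical of `U k Γ` -/
theorem cor_eq {U : Submodule k H} (hU : IsSubbialgebra k U) {Γ : Set (GroupLike k H)} (hspan : U * kS k Γ = ⊤) :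
    coradical k H = (U ⊓ coradical k H) * kS k Γ := by
  apply le_antisymm
  · intro x hx
    obtain ⟨D, S, hD, hDU, hSΓ, hxD⟩ := cover_one k (U := U) (Γ := Γ) (x := x) (by rw [hspan]; trivial)
    obtain ⟨Z, hZf, hZs, hDZ, hZU⟩ := fund_in hU.sub hD hDU
    have h1 := nd_mul k hZf (kS_fg k S) hZs (kS_sub k _) ⟨mul_le_mul' hDZ le_rfl hxD, hx⟩
    exact mul_le_mul' (inf_le_inf hZU le_rfl) (inf_le_left.trans (kS_mono k hSΓ)) h1
  · rw [Submodule.mul_le]
    rintro a ⟨-, ha⟩ b hb
    unfold kS at hb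
    induction hb using Submodule.span_induction with
    | mem y hy =>
      obtain ⟨g, -, rfl⟩ := hy
      exact cor_mul_grp g ha
    | zero => rw [mul_zero]; exact Submodule.zero_mem _
    | add y z _ _ hy hz => rw [mul_add]; exact Submodule.add_mem _ hy hz
    | smul t y _ hy => rw [mul_smul_comm]; exact Submodule.smul_mem _ _ hy

/-- the coradical of `U k Γ` is a Hopf subalgebra if the coradical of `U` is one -/
theorem cor_hopf {U : Submodule k H} (hU : IsSubbialgebra k U) (hUA : IsHopfSubalgebra k (U ⊓ coradical k H))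
    {Γ : Subgroup (GroupLike k H)} (hΓU : ∀ g ∈ Γ, ∀ x ∈ U, g.val * x * (g⁻¹).val ∈ U)
    (hspan : U * kS k (Γ : Set (GroupLike k H)) = ⊤) : IsHopfSubalgebra k (coradical k H) := by
  have heq := cor_eq hU hspan
  set A : Submodule k H := U ⊓ coradical k H with hA
  have hconj : ∀ g ∈ Γ, ∀ a ∈ A, cj k g a ∈ A := by
    rintro g hg a ⟨ha, hac⟩
    refine ⟨?_, cor_cj g hac⟩
    rw [cj_apply, ← mul_assoc]
    exact hΓU g hg a ha
  have hcom : kS k (Γ : Set (GroupLike k H)) * A ≤ A * kS k (Γ : Set (GroupLike k H)) := by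
    rw [Submodule.mul_le]
    intro t ht a ha
    unfold kS at ht
    induction ht using Submodule.span_induction with
    | mem y hy =>
      obtain ⟨g, hg, rfl⟩ := hy
      have h2 : g.val * a = cj k g a * g.val := by
        rw [cj_apply, mul_assoc, mul_assoc, grp_inv_mul, mul_one]
      rw [h2]
      exact Submodule.mul_mem_mul (hconj g hg a ha) (Submodule.subset_span ⟨g, hg, rfl⟩)
    | zero => rw [zero_mul]; exact Submodule.zero_mem _
    | add y z _ _ hy hz => rw [add_mul]; exact Submodule.add_mem _ hy hz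
    | smul t y _ hy => rw [smul_mul_assoc]; exact Submodule.smul_mem _ _ hy
  have hΓΓ : kS k (Γ : Set (GroupLike k H)) * kS k (Γ : Set (GroupLike k H)) ≤ kS k (Γ : Set (GroupLike k H)) := by
    unfold kS
    rw [Submodule.span_mul_span, Submodule.span_le]
    rintro _ ⟨_, ⟨g, hg, rfl⟩, _, ⟨h, hh, rfl⟩, rfl⟩
    exact Submodule.subset_span ⟨g * h, Γ.mul_mem hg hh, GroupLike.val_mul g h⟩
  have hmul : coradical k H * coradical k H ≤ coradical k H := by
    conv_lhs => rw [heq]
    conv_rhs => rw [heq]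
    rw [mul_assoc, ← mul_assoc (kS k (Γ : Set (GroupLike k H))) A]
    refine (mul_le_mul' le_rfl (mul_le_mul' hcom le_rfl)).trans ?_
    rw [mul_assoc, ← mul_assoc A A]
    exact mul_le_mul' hUA.mul_le hΓΓ
  refine ⟨hUA.one_mem.2, fun a ha b hb => hmul (Submodule.mul_mem_mul ha hb), GKP.coradical_sub k, ?_⟩
  have h1 : coradical k H ≤ (coradical k H).comap (HopfAlgebra.antipode k) := by
    conv_lhs => rw [heq]
    rw [Submodule.mul_le]
    intro a ha b hb
    unfold kS at hb
    induction hb using Submodule.span_induction with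
    | mem y hy =>
      obtain ⟨g, hg, rfl⟩ := hy
      rw [Submodule.mem_comap, HopfAlgebra.antipode_mul_antidistrib]
      exact hmul (Submodule.mul_mem_mul (grp_mem_cor k g⁻¹) (hUA.antipode_mem a ha).2)
    | zero => rw [mul_zero]; exact Submodule.zero_mem _
    | add y z _ _ hy hz => rw [mul_add]; exact Submodule.add_mem _ hy hz
    | smul t y _ hy => rw [mul_smul_comm]; exact Submodule.smul_mem _ _ hy
  exact fun a ha => h1 ha

end cor

section final
variable (k : Type u) [Field k] {H : Type v} [Ring H] [HopfAlgebra k H]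

/-- `L` is stable under the conjugations by the elements of `S` -/
def ConjStable (S : Set (GroupLike k H)) (L : Submodule k H) : Prop :=
  ∀ s ∈ S, ∀ y ∈ L, s.val * y * (s⁻¹).val ∈ L

end final

end Pool.Agent.GKW
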